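import Pool.Agent.Y389.QH.Expo

set_option autoImplicit false

namespace Pool.Agent.Y389.QH

open Finset Classical MonoidAlgebra

theorem oddOrder {r : ℕ} [Fact r.Prime] (n : ℕ) (hn : n ≠ 0)
    (h : ∀ l : ℕ, l.Prime → l ∣ n → ∃ O : ℕ, Odd O ∧ ((l : ZMod r)) ^ O = 1) :
    ∃ O : ℕ, Odd O ∧ ((n : ZMod r)) ^ O = 1 := by
  induction n using Nat.recOnMul with
  | zero => exact absurd rfl hn
  | one => exact ⟨1, odd_one, by simp⟩
  | prime p hp => exact h p hp dvd_rfl
  | mul a b iha ihb =>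
    have ha : a ≠ 0 := fun h0 => hn (by rw [h0, zero_mul])
    have hb : b ≠ 0 := fun h0 => hn (by rw [h0, mul_zero])
    obtain ⟨O1, h1, h2⟩ := iha ha fun l hl hd => h l hl (hd.mul_right _)
    obtain ⟨O2, h3, h4⟩ := ihb hb fun l hl hd => h l hl (hd.mul_left _)
    refine ⟨O1 * O2, h1.mul h3, ?_⟩
    rw [Nat.cast_mul, mul_pow, pow_mul, h2, one_pow, mul_comm O1, pow_mul, h4, one_pow, one_mul]

/-- A prime divisor of `k` one of whose powers is `-1` modulo `r`. -/
theorem exSelf {r k : ℕ} [Fact r.Prime] (hr2 : r ≠ 2) (hk : k ≠ 0) (hrk : ¬ r ∣ k)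
    (h3 : ((k : ZMod r)) ^ 3 = -1) :
    ∃ l j : ℕ, l.Prime ∧ l ∣ k ∧ 1 ≤ j ∧ ((l : ZMod r)) ^ j = -1 := by
  by_contra hc
  push Not at hc
  have hodd : ∀ l : ℕ, l.Prime → l ∣ k → ∃ O : ℕ, Odd O ∧ ((l : ZMod r)) ^ O = 1 := by
    intro l hl hd
    have hl0 : ((l : ZMod r)) ≠ 0 := by
      intro h0
      rw [ZMod.natCast_eq_zero_iff] at h0
      exact hrk (h0.trans hd)
    refine ⟨orderOf (l : ZMod r), ?_, pow_orderOf_eq_one _⟩
    rw [← Nat.not_even_iff_odd]
    rintro ⟨c, hcc⟩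
    have hpos : 0 < orderOf (l : ZMod r) := by
      rw [orderOf_pos_iff, isOfFinOrder_iff_pow_eq_one]
      refine ⟨r - 1, ?_, ZMod.pow_card_sub_one_eq_one hl0⟩
      have := (Fact.out : r.Prime).two_le
      omega
    have hc1 : 1 ≤ c := by omega
    have h4 : (((l : ZMod r)) ^ c) ^ 2 = 1 := by
      rw [← pow_mul, mul_two, ← hcc, pow_orderOf_eq_one]
    rw [sq, mul_self_eq_one_iff] at h4
    rcases h4 with h5 | h5
    · have := orderOf_le_of_pow_eq_one (by omega) h5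
      omega
    · exact hc l c hl hd hc1 h5
  obtain ⟨O, h1, h2⟩ := oddOrder (r := r) k hk hodd
  have h4 : (-1 : ZMod r) ^ O = 1 := by
    rw [← h3, ← pow_mul, mul_comm, pow_mul, h2, one_pow]
  rw [h1.neg_one_pow] at h4
  have h5 : ((2 : ℕ) : ZMod r) = 0 := by
    push_cast
    linear_combination -h4
  rw [ZMod.natCast_eq_zero_iff] at h5
  exact hr2 ((Nat.prime_dvd_prime_iff_eq Fact.out Nat.prime_two).1 h5)

section
variable {G : Type} [CommGroup G] [Fintype G]
variable {ι : Type} [Fintype ι] {k v : ℕ} {N : ι → Subgroup G} {D : Finset G}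

theorem selfConj {r l j : ℕ} (hr : r.Prime) (he : ∀ g : G, g ^ r = 1)
    (hlj : ((l : ZMod r)) ^ j = -1) : ∀ g : G, g ^ (l ^ j) = g⁻¹ := by
  intro g
  have h1 : (((l ^ j + 1 : ℕ)) : ZMod r) = 0 := by
    push_cast
    rw [hlj]
    ring
  rw [ZMod.natCast_eq_zero_iff] at h1
  obtain ⟨c, hc⟩ := h1
  have h2 : g ^ (l ^ j) * g = 1 := by
    rw [← pow_succ, hc, pow_mul, he, one_pow]
  exact eq_inv_of_mul_eq_one_left h2

theorem Dt.final (d : Dt G ι k v N D) : False := by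
  have hk := d.hk
  have hv := d.hv
  have hv7 : 7 ≤ v := by
    obtain ⟨c, rfl⟩ : ∃ c, k = c + 3 := ⟨k - 3, by omega⟩
    nlinarith
  have hvk : v < k ^ 2 := by omega
  obtain ⟨r, hr, hrv⟩ := Nat.exists_prime_and_dvd (show v ≠ 1 by omega)
  haveI : Fact r.Prime := ⟨hr⟩
  have hexp := d.expo hr hrv
  -- `v` is a power of `r`
  obtain ⟨e, he⟩ : ∃ e, v = r ^ e := by
    have hp : IsPGroup r G := fun g => ⟨1, by rw [pow_one]; exact hexp g⟩
    obtain ⟨m, hm⟩ := (IsPGroup.iff_card (p := r) (G := G)).1 hp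
    rw [d.cG] at hm
    have h1 : v ∣ r ^ m := by
      rw [← hm]
      exact dvd_pow_self v two_ne_zero
    obtain ⟨e, _, he⟩ := (Nat.dvd_prime_pow hr).1 h1
    exact ⟨e, he⟩
  -- parity of `v`
  have hvodd : v % 2 = 1 := by
    rcases Nat.even_or_odd k with h1 | h1
    · obtain ⟨c, rfl⟩ := h1
      have : (c + c) ^ 2 = 2 * (2 * c ^ 2) := by ring
      omega
    · obtain ⟨c, rfl⟩ := h1
      have : (2 * c + 1) ^ 2 = 2 * (2 * c ^ 2 + 2 * c) + 1 := by ring
      omega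
  have hr2 : r ≠ 2 := by
    rintro rfl
    omega
  have hrk : ¬ r ∣ k := by
    intro h1
    have h2 : r ∣ k ^ 2 := dvd_pow h1 two_ne_zero
    have h3 : r ∣ k ^ 2 + 1 := by
      rw [← hv]
      exact dvd_add hrv h1
    exact hr.one_lt.ne' (Nat.dvd_one.1 ((Nat.dvd_add_right h2).1 h3))
  have hk3 : ((k : ZMod r)) ^ 3 = -1 := by
    have h1 : ((v : ℕ) : ZMod r) = 0 := (ZMod.natCast_eq_zero_iff _ _).2 hrv
    have h2 : ((v + k : ℕ) : ZMod r) = ((k ^ 2 + 1 : ℕ) : ZMod r) := by rw [hv]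
    push_cast at h2
    rw [h1] at h2
    linear_combination (-((k : ZMod r)) - 1) * h2
  obtain ⟨l, j, hl, hlk, hj1, hlj⟩ := exSelf (r := r) hr2 (by omega) hrk hk3
  haveI : Fact l.Prime := ⟨hl⟩
  have hconj := selfConj (G := G) hr hexp hlj
  have h2 : 2 ≤ l ^ j := by
    calc 2 ≤ l := hl.two_le
      _ = l ^ 1 := (pow_one l).symm
      _ ≤ l ^ j := Nat.pow_le_pow_right hl.pos hj1
  rcases Nat.lt_or_ge l 3 with hl3 | hl3
  swap
  · exact d.big hconj h2 (a := 1) (by rwa [pow_one]) (by rwa [pow_one])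
  have hl2 : l = 2 := by
    have := hl.two_le
    omega
  subst hl2
  by_cases h4 : 4 ∣ k
  · exact d.big hconj h2 (a := 2) h4 (by norm_num)
  -- now `k ≡ 2 (mod 4)`
  have hkm : k % 4 = 2 := by omega
  have hv4 : v % 4 = 3 := by
    obtain ⟨c, hc⟩ : ∃ c, k = 4 * c + 2 := ⟨k / 4, by omega⟩
    have : k ^ 2 = 4 * (4 * c ^ 2 + 4 * c + 1) := by rw [hc]; ring
    omega
  -- `r ≡ 3 (mod 4)`, `e` odd
  have hr4 : r % 4 = 3 ∧ Odd e := by
    have h5 : (r ^ e) % 4 = ((r % 4) ^ e) % 4 := Nat.pow_mod r e 4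
    rw [← he, hv4] at h5
    have h6 : r % 2 = 1 := (hr.eq_two_or_odd).resolve_left hr2
    have h7 : r % 4 = 1 ∨ r % 4 = 3 := by omega
    rcases h7 with h7 | h7
    · rw [h7, one_pow] at h5
      omega
    · refine ⟨h7, ?_⟩
      rw [← Nat.not_even_iff_odd]
      rintro ⟨c, rfl⟩
      rw [h7, ← two_mul, pow_mul] at h5
      have h8 : (3 ^ 2) ^ c % 4 = ((3 ^ 2 % 4) ^ c) % 4 := Nat.pow_mod (3 ^ 2) c 4
      norm_num at h8
      norm_num at h5
      omega
  obtain ⟨hr4, heo⟩ := hr4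
  by_cases h3v : 3 ∣ v
  · -- `r = 3`
    have h5 : 3 ∣ r := by
      rw [he] at h3v
      exact Nat.prime_three.dvd_of_dvd_pow h3v
    have h6 : r = 3 := ((Nat.prime_dvd_prime_iff_eq Nat.prime_three hr).1 h5).symm
    subst h6
    have h9 : ¬ 9 ∣ v := by
      intro h7
      have h8 : (v + k) % 9 = (k ^ 2 + 1) % 9 := by rw [hv]
      have h10 : v % 9 = 0 := Nat.mod_eq_zero_of_dvd h7
      have h11 : k ^ 2 % 9 = ((k % 9) ^ 2) % 9 := Nat.pow_mod k 2 9
      have h12 : k % 9 < 9 := Nat.mod_lt _ (by norm_num)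
      generalize hq : k % 9 = q at h11 h12
      interval_cases q <;> omega
    apply h9
    have he2 : 2 ≤ e := by
      by_contra hc
      push Not at hc
      interval_cases e
      · omega
      · omega
    rw [he]
    exact pow_dvd_pow 3 he2
  · -- `r ≡ 1 (mod 3)`
    have hv3 : v % 3 = 1 := by
      have h8 : (v + k) % 3 = (k ^ 2 + 1) % 3 := by rw [hv]
      have h11 : k ^ 2 % 3 = ((k % 3) ^ 2) % 3 := Nat.pow_mod k 2 3
      have h12 : k % 3 < 3 := Nat.mod_lt _ (by norm_num)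
      generalize hq : k % 3 = q at h11 h12
      interval_cases q <;> omega
    have hr3 : r % 3 = 1 := by
      have h5 : (r ^ e) % 3 = ((r % 3) ^ e) % 3 := Nat.pow_mod r e 3
      rw [← he, hv3] at h5
      have h7 : r % 3 = 0 ∨ r % 3 = 1 ∨ r % 3 = 2 := by omega
      rcases h7 with h7 | h7 | h7
      · exfalso
        apply h3v
        have h8 : 3 ∣ r := Nat.dvd_of_mod_eq_zero h7
        rw [(Nat.prime_dvd_prime_iff_eq Nat.prime_three hr).1 h8]
        exact hrv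
      · exact h7
      · exfalso
        obtain ⟨c, rfl⟩ := heo
        rw [h7, pow_add, pow_mul, pow_one, Nat.mul_mod, Nat.pow_mod] at h5
        norm_num at h5
    have hk3 : k % 3 ≠ 2 := by
      intro h5
      have h8 : (v + k) % 3 = (k ^ 2 + 1) % 3 := by rw [hv]
      have h11 : k ^ 2 % 3 = ((k % 3) ^ 2) % 3 := Nat.pow_mod k 2 3
      rw [h5] at h11
      omega
    -- `3` is not a square modulo `r`
    haveI : Fact (Nat.Prime 3) := ⟨Nat.prime_three⟩
    have hne3 : r ≠ 3 := by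
      rintro rfl
      omega
    have hns : ¬ IsSquare ((3 : ℕ) : ZMod r) := by
      rw [ZMod.exists_sq_eq_prime_iff_of_mod_four_eq_three hr4 (by norm_num) hne3, not_not]
      refine ⟨1, ?_⟩
      have h5 : ((r : ℕ) : ZMod 3) = ((1 : ℕ) : ZMod 3) := by
        rw [ZMod.natCast_eq_natCast_iff]
        exact hr3
      rw [h5]
      norm_num
    have h30 : ((3 : ℕ) : ZMod r) ≠ 0 := by
      intro h5
      rw [ZMod.natCast_eq_zero_iff] at h5
      exact hne3 ((Nat.prime_dvd_prime_iff_eq hr Nat.prime_three).1 h5)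
    have h3j : ((3 : ℕ) : ZMod r) ^ (r / 2) = -1 := by
      rcases ZMod.pow_div_two_eq_neg_one_or_one r h30 with h5 | h5
      · exact absurd ((ZMod.euler_criterion r h30).2 h5) hns
      · exact h5
    have hconj3 := selfConj (G := G) hr hexp h3j
    have hr1 : 1 ≤ r / 2 := by
      have := hr.two_le
      omega
    have h23 : 2 ≤ 3 ^ (r / 2) := by
      calc 2 ≤ 3 ^ 1 := by norm_num
        _ ≤ 3 ^ (r / 2) := Nat.pow_le_pow_right (by norm_num) hr1
    by_cases h5 : 3 ∣ k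
    · exact d.big hconj3 h23 (a := 1) (by rwa [pow_one]) (by norm_num)
    · exact d.small hconj3 h23 (by omega)

end

end Pool.Agent.Y389.QH
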