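import Pool.Agent.Y389.QH.Diff
import Pool.Agent.Y389.QH.Final

set_option autoImplicit false

namespace Pool.Agent.Y389.QH

open Finset Classical

section
variable {P L G : Type} [Fintype P] [Fintype L] [Group G] [Fintype G] [MulAction G P]
  [MulAction G L] {I : P → L → Prop}

/-- No quasiregular group of type (h), for planes given by an incidence relation. -/
theorem noTypeH {k v : ℕ} (hk : 3 ≤ k) (hv : v + k = k ^ 2 + 1)
    (pl : Pl P L I (k ^ 2)) (a : Ac P L G I)
    (cG : Nat.card G = v ^ 2) (fa : ∀ g : G, g ≠ 1 → ∃ q : P, g • q ≠ q)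
    (ho : Nat.card (MulAction.orbitRel.Quotient G P) = 2 * k + 1) : False := by
  obtain ⟨ι, _, x0, z, s⟩ := exSt hk hv pl a cG fa ho
  obtain ⟨D, h1, h2, h3⟩ := s.diff
  letI : CommGroup G := { (inferInstance : Group G) with mul_comm := s.comm }
  have d : Dt G ι k v (fun i => NN G z i) D :=
    { hk := s.hk
      hv := s.hv
      cG := s.cG
      cI := s.cI
      cN := fun i => s.card_NN i
      dis := fun i j hij => s.disj hij
      prod := fun i j hij g => s.prod hij g
      cD := h1
      h0 := h2
      h1 := h3 }
  exact d.final

end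

/-- If the point set of a projective plane is finite, then so is the line set. -/
theorem finiteL (P L : Type) [Membership P L] [Configuration.ProjectivePlane P L] [Finite P] :
    Finite L := by
  refine Finite.of_injective (fun l : L => {p : P | p ∈ l}) ?_
  intro l m hlm
  by_contra hne
  have hiff : ∀ p : P, p ∈ l ↔ p ∈ m := fun p => by
    have := congrArg (fun s : Set P => p ∈ s) hlm
    simpa using this
  obtain ⟨hq1, hq2⟩ := Configuration.HasPoints.mkPoint_ax (P := P) hne
  set q : P := Configuration.HasPoints.mkPoint hne with hq
  obtain ⟨n, hn⟩ := Configuration.Nondegenerate.exists_line (P := P) (L := L) q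
  have hnl : n ≠ l := by
    rintro rfl
    exact hn hq1
  obtain ⟨hx1, hx2⟩ := Configuration.HasPoints.mkPoint_ax (P := P) hnl
  set x : P := Configuration.HasPoints.mkPoint hnl with hx
  rcases Configuration.Nondegenerate.eq_or_eq hx2 hq1 ((hiff x).1 hx2) hq2 with h | h
  · rw [h] at hx1
    exact hn hx1
  · exact hne h

theorem mkPl (P L : Type) [Membership P L] [Configuration.ProjectivePlane P L] [Fintype P]
    [Fintype L] {n : ℕ} (hn : Configuration.ProjectivePlane.order P L = n) :
    Pl P L (fun (p : P) (l : L) => p ∈ l) n where
  join := by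
    intro p q
    by_cases h : p = q
    · subst h
      have h1 := Configuration.ProjectivePlane.lineCount_eq (L := L) p
      rw [Configuration.lineCount] at h1
      have h2 : 0 < Nat.card {l : L // p ∈ l} := by rw [h1]; omega
      obtain ⟨⟨l, hl⟩⟩ := (Nat.card_pos_iff.1 h2).1
      exact ⟨l, hl, hl⟩
    · exact ⟨_, (Configuration.HasLines.mkLine_ax h).1, (Configuration.HasLines.mkLine_ax h).2⟩
  meet := by
    intro l m
    by_cases h : l = m
    · subst h
      have h1 := Configuration.ProjectivePlane.pointCount_eq P l
      rw [Configuration.pointCount] at h1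
      have h2 : 0 < Nat.card {p : P // p ∈ l} := by rw [h1]; omega
      obtain ⟨⟨p, hp⟩⟩ := (Nat.card_pos_iff.1 h2).1
      exact ⟨p, hp, hp⟩
    · exact ⟨_, (Configuration.HasPoints.mkPoint_ax h).1,
        (Configuration.HasPoints.mkPoint_ax h).2⟩
  uniq := by
    intro p q l m h1 h2 h3 h4
    exact Configuration.Nondegenerate.eq_or_eq h1 h2 h3 h4
  pts := by
    intro l
    have h1 := Configuration.ProjectivePlane.pointCount_eq P l
    rw [Configuration.pointCount, hn, Nat.card_eq_fintype_card, Fintype.card_subtype] at h1
    exact h1
  lns := by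
    intro p
    have h1 := Configuration.ProjectivePlane.lineCount_eq (L := L) p
    rw [Configuration.lineCount, hn, Nat.card_eq_fintype_card, Fintype.card_subtype] at h1
    exact h1
  cP := by
    rw [Configuration.ProjectivePlane.card_points P L, hn]
  cL := by
    rw [Configuration.ProjectivePlane.card_lines P L, hn]

end Pool.Agent.Y389.QH
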