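import Pool.Agent.Y389.QH.Rel

set_option autoImplicit false

namespace Pool.Agent.Y389.QH

open Finset Classical MonoidAlgebra

section
variable {G : Type} [CommGroup G] [Fintype G]
variable {ι : Type} [Fintype ι] {k v : ℕ} {N : ι → Subgroup G} {D : Finset G}

theorem Dt.dn (d : Dt G ι k v N D) {g : G} (hg : g ∈ D) (i : ι) :
    (el D * nn (N i)).coeff g = 1 := by
  rw [mul_coeff, Finset.sum_eq_single g]
  · rw [el_coeff, if_pos hg, nn_coeff, inv_mul_cancel, if_pos (Subgroup.one_mem _), one_mul]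
  · intro h _ hne
    rw [el_coeff, nn_coeff]
    by_cases h1 : h ∈ D
    · by_cases h2 : h⁻¹ * g ∈ N i
      · exfalso
        apply hne
        exact d.h0 i h h1 g hg (by rwa [mul_comm])
      · rw [if_neg h2, mul_zero]
    · rw [if_neg h1, zero_mul]
  · intro h
    exact absurd (mem_univ _) h

/-- The number of pairs `(i, x)` with `x ∈ D` in the coset `g N i`. -/
noncomputable def cc (N : ι → Subgroup G) (D : Finset G) (g : G) : ℤ := (el D * ss N).coeff g

theorem Dt.cc_mem (d : Dt G ι k v N D) {g : G} (hg : g ∈ D) : cc N D g = 2 * k := by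
  rw [cc, ss, Finset.mul_sum, sum_coeff, Finset.sum_congr rfl (fun i _ => d.dn hg i),
    Finset.sum_const, Finset.card_univ, d.cI]
  simp

theorem Dt.sum1 (d : Dt G ι k v N D) : ∑ g, cc N D g = 2 * k * v * ((k : ℤ) - 1) ^ 2 := by
  have h1 := mul_gs (el D * ss N)
  rw [mul_assoc, d.sg] at h1
  have h2 : el D * (2 * (k : MonoidAlgebra ℤ G) * (v : MonoidAlgebra ℤ G) * el univ) =
      ((2 * k * v * ((k : ℤ) - 1) ^ 2 : ℤ) : MonoidAlgebra ℤ G) * el univ := by
    push_cast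
    linear_combination (2 * (k : MonoidAlgebra ℤ G) * (v : MonoidAlgebra ℤ G)) * d.dg
  rw [h2] at h1
  have h3 := congrArg (fun x : MonoidAlgebra ℤ G => x.coeff 1) h1
  simp only [int_coeff, el_coeff, if_pos (mem_univ _), mul_one] at h3
  exact h3.symm

theorem Dt.sum2 (d : Dt G ι k v N D) : ∑ g, cc N D g ^ 2 =
    k ^ 2 * v * (2 * k) + k ^ 2 * (2 * k * (2 * k - 1)) + v * (2 * k * v) +
      2 * k * (2 * k - 1) * (v : ℤ) ^ 2 - v * v * (2 * k) - v * (2 * k * (2 * k - 1)) -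
      2 * k * (2 * k - 1) * (2 * k * v) := by
  have h1 : (el D * ss N * bar ℤ (el D * ss N)).coeff 1 = ∑ g, cc N D g ^ 2 := by
    rw [mul_coeff]
    refine Finset.sum_congr rfl fun g _ => ?_
    rw [bar_coeff, mul_one, inv_inv, cc, sq]
  have h2 : el D * ss N * bar ℤ (el D * ss N) =
      ((k ^ 2 * v : ℤ) : MonoidAlgebra ℤ G) * ss N +
      ((k ^ 2 * (2 * k * (2 * k - 1)) : ℤ) : MonoidAlgebra ℤ G) * el univ +
      ((v * (2 * k * v) : ℤ) : MonoidAlgebra ℤ G) * el univ +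
      ((2 * k * (2 * k - 1) * v ^ 2 : ℤ) : MonoidAlgebra ℤ G) * el univ -
      ((v * v : ℤ) : MonoidAlgebra ℤ G) * ss N -
      ((v * (2 * k * (2 * k - 1)) : ℤ) : MonoidAlgebra ℤ G) * el univ -
      ((2 * k * (2 * k - 1) * (2 * k * v) : ℤ) : MonoidAlgebra ℤ G) * el univ := by
    rw [map_mul, bar_ss]
    push_cast
    have e1 := d.dbd
    have e2 := d.s2
    have e3 := d.sg
    have e4 := d.gg
    linear_combination (ss N * ss N) * e1 + ((k : MonoidAlgebra ℤ G) ^ 2 + el univ - ss N -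
      (v : MonoidAlgebra ℤ G)) * e2 +
      ((v : MonoidAlgebra ℤ G) - 2 * (k : MonoidAlgebra ℤ G) *
        (2 * (k : MonoidAlgebra ℤ G) - 1)) * e3 +
      (2 * (k : MonoidAlgebra ℤ G) * (2 * (k : MonoidAlgebra ℤ G) - 1)) * e4
  rw [← h1, h2]
  have h3 : (ss N).coeff 1 = 2 * k := by
    rw [ss_coeff]
    simp [Subgroup.one_mem, d.cI]
  simp only [add_coeff, sub_coeff, int_coeff, el_coeff, if_pos (mem_univ _), h3]
  ring

/-- The main inequality: no prime power `l ^ a ≥ 3` dividing `k` is self-conjugate. -/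
theorem Dt.big (d : Dt G ι k v N D) {l j a : ℕ} [Fact l.Prime]
    (hj : ∀ g : G, g ^ (l ^ j) = g⁻¹) (h2 : 2 ≤ l ^ j) (hl : l ^ a ∣ k) (h3 : 3 ≤ l ^ a) :
    False := by
  obtain ⟨m, hm⟩ := hl
  have hk := d.hk
  set T : MonoidAlgebra ℤ G := (v : MonoidAlgebra ℤ G) ^ 2 - (v : MonoidAlgebra ℤ G) * ss N +
    (2 * (k : MonoidAlgebra ℤ G) - 1) * el univ with hT
  have e1 := d.dbd
  have e2 := d.s2
  have e3 := d.sg
  have e4 := d.gg
  have e5 := d.dg
  have hbT : bar ℤ T = T := by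
    rw [hT]
    simp only [map_add, map_sub, map_mul, map_pow, map_natCast, map_ofNat, map_one, bar_ss,
      bar_el_univ]
  have hTg : T * el univ = 0 := by
    rw [hT]
    linear_combination (-(v : MonoidAlgebra ℤ G)) * e3 +
      (2 * (k : MonoidAlgebra ℤ G) - 1) * e4
  have hTs : T * ss N = 0 := by
    rw [hT]
    linear_combination (-(v : MonoidAlgebra ℤ G)) * e2 +
      (2 * (k : MonoidAlgebra ℤ G) - 1) * e3
  have hYY : (el D * T) * bar ℤ (el D * T) =
      (l : MonoidAlgebra ℤ G) ^ (2 * a) * ((m : MonoidAlgebra ℤ G) ^ 2 * T * T) := by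
    rw [map_mul, hbT]
    have hk' : (k : MonoidAlgebra ℤ G) = (l : MonoidAlgebra ℤ G) ^ a * m := by
      rw [hm]; push_cast; ring
    have h4 : el D * T * (bar ℤ (el D) * T) = (k : MonoidAlgebra ℤ G) ^ 2 * (T * T) := by
      linear_combination (T * T) * e1 + T * hTg - T * hTs
    rw [h4, hk', mul_comm 2 a, pow_mul]
    ring
  obtain ⟨Y', hY'⟩ := lift_int hj h2 a _ _ hYY
  have hdiv : ∀ g, ((l ^ a : ℕ) : ℤ) ∣ (el D * T).coeff g := by
    intro g
    rw [hY']
    refine ⟨Y'.coeff g, ?_⟩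
    rw [← nat_coeff]
    push_cast
    rfl
  have hYe : el D * T = ((v ^ 2 : ℤ) : MonoidAlgebra ℤ G) * el D -
      ((v : ℤ) : MonoidAlgebra ℤ G) * (el D * ss N) +
      (((2 * k - 1) * (k - 1) ^ 2 : ℤ) : MonoidAlgebra ℤ G) * el univ := by
    rw [hT]
    push_cast
    linear_combination (2 * (k : MonoidAlgebra ℤ G) - 1) * e5
  have hvz := d.vz
  set s : ℤ := ((l ^ a : ℕ) : ℤ) with hs
  have hs3 : 3 ≤ s := by rw [hs]; exact_mod_cast h3
  have hsk : s ∣ (k : ℤ) := by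
    rw [hs]
    exact Int.natCast_dvd_natCast.2 ⟨m, hm⟩
  have hC : ∀ g, g ∉ D → s ∣ (2 * k - 1 - cc N D g) := by
    intro g hg
    have h5 := hdiv g
    rw [hYe, add_coeff, sub_coeff, int_coeff, int_coeff, int_coeff, el_coeff, el_coeff,
      if_neg hg, if_pos (mem_univ _)] at h5
    change s ∣ (v : ℤ) ^ 2 * 0 - (v : ℤ) * cc N D g + (2 * k - 1) * (k - 1) ^ 2 * 1 at h5
    have h6 : (2 * (k : ℤ) - 1 - cc N D g) = ((v : ℤ) ^ 2 * 0 - (v : ℤ) * cc N D g +
        (2 * k - 1) * (k - 1) ^ 2 * 1) + k * (2 - (2 * k ^ 2 - 5 * k + 4) +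
          (k - 1) * cc N D g) := by
      rw [hvz]
      ring
    rw [h6]
    exact dvd_add h5 (hsk.mul_right _)
  have hge : ∀ g, (if g ∈ D then (1 + s) else 0) ≤
      (2 * k - 1 - cc N D g) * (2 * k - 1 - cc N D g - s) := by
    intro g
    by_cases hg : g ∈ D
    · rw [if_pos hg, d.cc_mem hg]
      nlinarith
    · rw [if_neg hg]
      obtain ⟨u, hu⟩ := hC g hg
      rw [hu]
      have h7 : 0 ≤ u * (u - 1) := by
        rcases le_or_gt u 0 with h8 | h8
        · nlinarith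
        · have : 1 ≤ u := h8
          nlinarith
      have h8 : s * u * (s * u - s) = s ^ 2 * (u * (u - 1)) := by ring
      rw [h8]
      positivity
  have hsum := Finset.sum_le_sum (s := (univ : Finset G)) fun g _ => hge g
  have hl1 : (∑ g : G, if g ∈ D then (1 + s) else 0) = (k - 1) ^ 2 * (1 + s) := by
    rw [← Finset.sum_filter]
    have : univ.filter (fun x => x ∈ D) = D := by ext; simp
    rw [this, Finset.sum_const, d.cD, nsmul_eq_mul]
    push_cast [Nat.cast_sub (show 1 ≤ k by omega)]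
    ring
  have hr1 : (∑ g : G, (2 * k - 1 - cc N D g) * (2 * k - 1 - cc N D g - s)) =
      (v : ℤ) ^ 2 * ((2 * k - 1) * (2 * k - 1 - s)) - (4 * k - 2 - s) * ∑ g, cc N D g +
      ∑ g, cc N D g ^ 2 := by
    rw [Finset.mul_sum]
    have h9 : (v : ℤ) ^ 2 * ((2 * k - 1) * (2 * k - 1 - s)) =
        ∑ _g : G, (2 * k - 1) * (2 * (k : ℤ) - 1 - s) := by
      rw [Finset.sum_const, Finset.card_univ, ← Nat.card_eq_fintype_card, d.cG, nsmul_eq_mul]
      push_cast
      ring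
    rw [h9, ← Finset.sum_sub_distrib, ← Finset.sum_add_distrib]
    refine Finset.sum_congr rfl fun g _ => ?_
    ring
  rw [hl1, hr1, d.sum1, d.sum2, hvz] at hsum
  have hkz : (3 : ℤ) ≤ k := by exact_mod_cast hk
  have hfin : (k : ℤ) ^ 2 * ((3 - s) * k ^ 2 - 2 * k) ≥ 0 := by
    nlinarith [hsum]
  have h10 : (3 - s) * (k : ℤ) ^ 2 - 2 * k < 0 := by nlinarith [sq_nonneg (k : ℤ)]
  have h11 : 0 < (k : ℤ) ^ 2 := by positivity
  nlinarith

/-- No self-conjugate prime divides `k - 1`. -/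
theorem Dt.small (d : Dt G ι k v N D) {l j : ℕ} [Fact l.Prime]
    (hj : ∀ g : G, g ^ (l ^ j) = g⁻¹) (h2 : 2 ≤ l ^ j) (hl : l ∣ k - 1) : False := by
  obtain ⟨m, hm⟩ := hl
  have hk := d.hk
  obtain ⟨i⟩ : Nonempty ι := Fintype.card_pos_iff.1 (by rw [d.cI]; omega)
  have e1 := d.dbd
  have e2 := d.ns i
  have e3 := d.ng i
  have e4 := d.nself i
  have hvz : (v : MonoidAlgebra ℤ G) = (k : MonoidAlgebra ℤ G) ^ 2 - k + 1 := by
    have := congrArg (fun x : ℤ => (x : MonoidAlgebra ℤ G)) d.vz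
    push_cast at this
    exact this
  have hkz : (k : MonoidAlgebra ℤ G) - 1 = (l : MonoidAlgebra ℤ G) * m := by
    have h4 : k = l * m + 1 := by omega
    rw [h4]
    push_cast
    ring
  have hYY : (el D * nn (N i)) * bar ℤ (el D * nn (N i)) =
      (l : MonoidAlgebra ℤ G) * ((m : MonoidAlgebra ℤ G) * ((v : MonoidAlgebra ℤ G) * nn (N i) +
        (v : MonoidAlgebra ℤ G) * ((k : MonoidAlgebra ℤ G) - 2) * el univ)) := by
    rw [map_mul, bar_nn]
    have h4 : el D * nn (N i) * (bar ℤ (el D) * nn (N i)) =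
        ((k : MonoidAlgebra ℤ G) - 1) * ((v : MonoidAlgebra ℤ G) * nn (N i) +
        (v : MonoidAlgebra ℤ G) * ((k : MonoidAlgebra ℤ G) - 2) * el univ) := by
      linear_combination (nn (N i) * nn (N i)) * e1 +
        ((k : MonoidAlgebra ℤ G) ^ 2 + el univ - ss N) * e4 +
        (v : MonoidAlgebra ℤ G) * e3 - (v : MonoidAlgebra ℤ G) * e2 +
        (-(v : MonoidAlgebra ℤ G) * nn (N i) + (v : MonoidAlgebra ℤ G) * el univ) * hvz
    rw [h4, hkz]
    ring
  obtain ⟨Y', hY'⟩ := red_int hj h2 _ _ hYY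
  have hD : D.Nonempty := by
    rw [← Finset.card_pos, d.cD]
    have : 0 < k - 1 := by omega
    positivity
  obtain ⟨g, hg⟩ := hD
  have h5 := d.dn hg i
  rw [hY', nat_coeff] at h5
  have h6 : (l : ℤ) ∣ 1 := ⟨_, h5.symm⟩
  have h7 : l ∣ 1 := by exact_mod_cast h6
  exact (Fact.out : l.Prime).one_lt.ne' (Nat.dvd_one.1 h7)

end

end Pool.Agent.Y389.QH
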