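import Pool.Agent.Y389.QH.Struct

set_option autoImplicit false

namespace Pool.Agent.Y389.QH

open Finset Classical

section
variable {P L G ι : Type} [Fintype P] [Fintype L] [Group G] [Fintype G] [MulAction G P]
  [MulAction G L] [Fintype ι] {I : P → L → Prop} {k v : ℕ} {x0 : P} {z : ι → P}

theorem St.diff (s : St P L G ι I k v x0 z) : ∃ D : Finset G, D.card = (k - 1) ^ 2 ∧
    (∀ i, ∀ x ∈ D, ∀ y ∈ D, y * x⁻¹ ∈ NN G z i → x = y) ∧
    (∀ g : G, (∀ i, g ∉ NN G z i) → ∃! x, x ∈ D ∧ g * x ∈ D) := by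
  have hk := s.hk
  have hv := s.hv
  obtain ⟨hn1, hn2, hn3⟩ := numk s.hv s.hk
  have hpos : 0 < (LL G I z).card := by
    rw [s.card_LL]
    have : 0 < v := by omega
    positivity
  obtain ⟨l0, hl0⟩ := Finset.card_pos.1 hpos
  have hone := fun i => s.one i hl0
  have hinj : Function.Injective fun g : G => g • x0 := by
    intro a b hab
    have hab' : a • x0 = b • x0 := hab
    have h1 : (b⁻¹ * a) • x0 = x0 := by rw [mul_smul, hab', inv_smul_smul]
    have h2 := s.fx _ h1
    exact (inv_mul_eq_one.1 h2).symm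
  refine ⟨univ.filter fun g : G => I (g • x0) l0, ?_, ?_, ?_⟩
  · -- the size
    set D := univ.filter fun g : G => I (g • x0) l0 with hD
    have h1 : (univ.filter fun p => I p l0) =
        (D.image fun g => g • x0) ∪ (univ.biUnion fun i => (OO G (z i)).filter fun p => I p l0) := by
      ext p
      rw [mem_filter, mem_union, mem_image, mem_biUnion]
      constructor
      · rintro ⟨_, h2⟩
        rcases s.cov p with ⟨g, hg⟩ | ⟨i, g, hg⟩
        · exact Or.inl ⟨g, by rw [hD, mem_filter]; exact ⟨mem_univ _, by rw [hg]; exact h2⟩, hg⟩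
        · exact Or.inr ⟨i, mem_univ _, by rw [mem_filter]; exact ⟨mem_OO.2 ⟨g, hg⟩, h2⟩⟩
      · rintro (⟨g, hg, rfl⟩ | ⟨i, _, hp⟩)
        · rw [hD, mem_filter] at hg
          exact ⟨mem_univ _, hg.2⟩
        · rw [mem_filter] at hp
          exact ⟨mem_univ _, hp.2⟩
    have h2 : Disjoint (D.image fun g => g • x0)
        (univ.biUnion fun i => (OO G (z i)).filter fun p => I p l0) := by
      rw [Finset.disjoint_left]
      intro p h3 h4
      rw [mem_image] at h3
      rw [mem_biUnion] at h4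
      obtain ⟨g, _, rfl⟩ := h3
      obtain ⟨i, _, h5⟩ := h4
      rw [mem_filter, mem_OO] at h5
      obtain ⟨⟨g', hg'⟩, _⟩ := h5
      exact s.dis0 i (g⁻¹ * g') (by rw [mul_smul, hg', inv_smul_smul])
    have h3 : (univ.biUnion fun i => (OO G (z i)).filter fun p => I p l0).card = 2 * k := by
      rw [Finset.card_biUnion]
      · rw [Finset.sum_congr rfl (fun i _ => hone i), Finset.sum_const, Finset.card_univ, s.cI,
          smul_eq_mul, mul_one]
      · intro i _ j _ hij
        rw [Function.onFun, Finset.disjoint_left]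
        intro p h4 h5
        rw [mem_filter, mem_OO] at h4 h5
        obtain ⟨⟨g1, hg1⟩, _⟩ := h4
        obtain ⟨⟨g2, hg2⟩, _⟩ := h5
        exact hij (s.dis i j (g2⁻¹ * g1) (by rw [mul_smul, hg1, ← hg2, inv_smul_smul]))
    have h4 := s.pl.pts l0
    rw [h1, Finset.card_union_of_disjoint h2, h3, Finset.card_image_of_injective _ hinj] at h4
    obtain ⟨j, rfl⟩ : ∃ j, k = j + 1 := ⟨k - 1, by omega⟩
    have h5 : (j + 1) ^ 2 + 1 = j ^ 2 + 2 * (j + 1) := by ring
    simp only [Nat.add_sub_cancel]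
    omega
  · intro i x hx y hy hxy
    rw [mem_filter] at hx hy
    by_contra hne
    -- the point of the orbit of `z i` on `l0`
    obtain ⟨p, hp⟩ := Finset.card_pos.1 (by rw [hone i]; exact one_pos)
    rw [mem_filter] at hp
    have hpf : (y * x⁻¹) • p = p := fixO s.ac (mem_NN.1 hxy) hp.1
    -- `l0` and `(y x⁻¹) • l0` share `p` and `y • x0`
    have h1 : I (y • x0) ((y * x⁻¹) • l0) := by
      have := s.ac.inc (y * x⁻¹) _ _ hx.2
      rwa [← mul_smul, inv_mul_cancel_right] at this
    have h2 : I p ((y * x⁻¹) • l0) := by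
      have := s.ac.inc (y * x⁻¹) _ _ hp.2
      rwa [hpf] at this
    rcases s.pl.uniq _ _ _ _ hp.2 hy.2 h2 h1 with h | h
    · obtain ⟨g', hg'⟩ := mem_OO.1 hp.1
      exact s.dis0 i (y⁻¹ * g') (by rw [mul_smul, hg', h, inv_smul_smul])
    · have h3 := s.LLfix hl0 h.symm
      exact hne (mul_inv_eq_one.1 h3).symm
  · intro g hg
    have hg1 : g ≠ 1 := by
      rintro rfl
      have h1 : 0 < Fintype.card ι := by
        rw [s.cI]
        omega
      obtain ⟨i⟩ := Fintype.card_pos_iff.1 h1
      exact hg i (Subgroup.one_mem _)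
    have hll : l0 ≠ g⁻¹ • l0 := by
      intro h
      have := s.LLfix hl0 h.symm
      exact hg1 (inv_eq_one.1 this)
    obtain ⟨p, hp1, hp2⟩ := s.pl.meet l0 (g⁻¹ • l0)
    have hgp : I (g • p) l0 := by
      have := s.ac.inc g _ _ hp2
      rwa [smul_inv_smul] at this
    rcases s.cov p with ⟨x, hx⟩ | ⟨i, x, hx⟩
    · refine ⟨x, ⟨?_, ?_⟩, ?_⟩
      · rw [mem_filter]
        exact ⟨mem_univ _, by rw [hx]; exact hp1⟩
      · rw [mem_filter]
        exact ⟨mem_univ _, by rw [mul_smul, hx]; exact hgp⟩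
      · rintro y ⟨hy1, hy2⟩
        rw [mem_filter] at hy1 hy2
        have h1 : I (y • x0) (g⁻¹ • l0) := by
          have := s.ac.inc g⁻¹ _ _ hy2.2
          rwa [mul_smul, inv_smul_smul] at this
        rcases s.pl.uniq _ _ _ _ hy1.2 hp1 h1 hp2 with h | h
        · apply hinj
          rw [← hx] at h
          exact h
        · exact absurd h hll
    · exfalso
      -- `g • p = p`
      have h1 : p ∈ (OO G (z i)).filter fun p => I p l0 := by
        rw [mem_filter]
        exact ⟨mem_OO.2 ⟨x, hx⟩, hp1⟩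
      have h2 : g • p ∈ (OO G (z i)).filter fun p => I p l0 := by
        rw [mem_filter]
        exact ⟨mem_OO.2 ⟨g * x, by rw [mul_smul, hx]⟩, hgp⟩
      obtain ⟨q, hq⟩ := Finset.card_eq_one.1 (hone i)
      rw [hq, mem_singleton] at h1 h2
      have h3 : g • p = p := by rw [h2, h1]
      exact hg i (mem_NN.2 (fixO s.ac h3 (symO (mem_OO.2 ⟨x, hx⟩))))

end

end Pool.Agent.Y389.QH
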