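import Pool.Agent.Y389.QH.Core

set_option autoImplicit false

namespace Pool.Agent.Y389.QH

open Finset Classical MonoidAlgebra

section
variable {G : Type} [CommGroup G] [Fintype G]
variable {ι : Type} [Fintype ι] {k v : ℕ} {N : ι → Subgroup G} {D : Finset G}

theorem Dt.third (d : Dt G ι k v N D) (i l : ι) : ∃ j : ι, j ≠ i ∧ j ≠ l := by
  have h1 : 2 < (univ : Finset ι).card := by
    rw [Finset.card_univ, d.cI]
    have := d.hk
    omega
  by_contra hc
  push Not at hc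
  have h2 : (univ : Finset ι) ⊆ {i, l} := by
    intro j _
    rw [mem_insert, mem_singleton]
    by_cases h : j = i
    · exact Or.inl h
    · exact Or.inr (hc j h)
  have h3 := Finset.card_le_card h2
  have h4 : ({i, l} : Finset ι).card ≤ 2 := Finset.card_le_two
  omega

theorem Dt.splitcard (d : Dt G ι k v N D) (H : Subgroup G)
    (hH : ∀ i j, i ≠ j → ∀ a ∈ N i, ∀ b ∈ N j, a * b ∈ H → a ∈ H) {i j : ι} (hij : i ≠ j) :
    Nat.card H = Nat.card (H ⊓ N i : Subgroup G) * Nat.card (H ⊓ N j : Subgroup G) := by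
  rw [← Nat.card_prod]
  symm
  refine Nat.card_congr (Equiv.ofBijective
    (fun x : (H ⊓ N i : Subgroup G) × (H ⊓ N j : Subgroup G) =>
      (⟨x.1.1 * x.2.1, H.mul_mem x.1.2.1 x.2.2.1⟩ : H)) ⟨?_, ?_⟩)
  · rintro ⟨⟨a, ha⟩, ⟨b, hb⟩⟩ ⟨⟨a', ha'⟩, ⟨b', hb'⟩⟩ h
    have h1 : a * b = a' * b' := congrArg Subtype.val h
    have h2 : a'⁻¹ * a = b' * b⁻¹ := by
      rw [eq_mul_inv_iff_mul_eq, mul_assoc, h1, inv_mul_cancel_left]
    have h3 : a'⁻¹ * a ∈ N i ⊓ N j := by
      refine ⟨(N i).mul_mem ((N i).inv_mem ha'.2) ha.2, ?_⟩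
      have h4 : b' * b⁻¹ ∈ N j := (N j).mul_mem hb'.2 ((N j).inv_mem hb.2)
      rw [← h2] at h4
      exact h4
    rw [d.dis i j hij, Subgroup.mem_bot] at h3
    have h4 : a' = a := inv_mul_eq_one.1 h3
    rw [h3] at h2
    have h5 : b' = b := mul_inv_eq_one.1 h2.symm
    subst h4 h5
    rfl
  · rintro ⟨g, hg⟩
    obtain ⟨a, ha, b, hb, rfl⟩ := d.prod i j hij g
    have h1 : a ∈ H := hH i j hij a ha b hb hg
    have h2 : b ∈ H := hH j i hij.symm b hb a ha (by rwa [mul_comm])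
    exact ⟨⟨⟨a, h1, ha⟩, ⟨b, h2, hb⟩⟩, rfl⟩

theorem Dt.pack (d : Dt G ι k v N D) (H : Subgroup G)
    (hH : ∀ i j, i ≠ j → ∀ a ∈ N i, ∀ b ∈ N j, a * b ∈ H → a ∈ H) :
    ∃ h, Nat.card H = h ^ 2 ∧ (∀ i, Nat.card (H ⊓ N i : Subgroup G) = h) ∧
      2 * k * (h - 1) + 1 ≤ h ^ 2 := by
  have hk := d.hk
  obtain ⟨i0⟩ : Nonempty ι := Fintype.card_pos_iff.1 (by rw [d.cI]; omega)
  have hall : ∀ i, Nat.card (H ⊓ N i : Subgroup G) = Nat.card (H ⊓ N i0 : Subgroup G) := by
    intro i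
    obtain ⟨j, hj1, hj2⟩ := d.third i i0
    have h1 := d.splitcard H hH hj1.symm
    have h2 := d.splitcard H hH hj2.symm
    rw [h1] at h2
    exact Nat.eq_of_mul_eq_mul_right Nat.card_pos h2
  obtain ⟨j, hj1, _⟩ := d.third i0 i0
  have hsq := d.splitcard H hH hj1
  rw [hall j, ← sq] at hsq
  refine ⟨_, hsq, hall, ?_⟩
  set h := Nat.card (H ⊓ N i0 : Subgroup G) with hh
  have h1 : (univ.biUnion fun i => (univ.filter fun g => g ∈ H ⊓ N i).erase 1).card =
      2 * k * (h - 1) := by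
    rw [Finset.card_biUnion]
    · have : ∀ i ∈ (univ : Finset ι),
          ((univ.filter fun g => g ∈ H ⊓ N i).erase 1).card = h - 1 := by
        intro i _
        rw [Finset.card_erase_of_mem, card_filter, hall]
        rw [mem_filter]
        exact ⟨mem_univ _, Subgroup.one_mem _⟩
      rw [Finset.sum_congr rfl this, Finset.sum_const, Finset.card_univ, d.cI, smul_eq_mul]
    · intro i _ l _ hil
      rw [Function.onFun, Finset.disjoint_left]
      intro g hg1 hg2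
      rw [mem_erase, mem_filter] at hg1 hg2
      have h3 : g ∈ N i ⊓ N l := ⟨hg1.2.2.2, hg2.2.2.2⟩
      rw [d.dis i l hil, Subgroup.mem_bot] at h3
      exact hg1.1 h3
  have h2 : (univ.biUnion fun i => (univ.filter fun g => g ∈ H ⊓ N i).erase 1) ⊆
      (univ.filter fun g => g ∈ H).erase 1 := by
    intro g hg
    rw [mem_biUnion] at hg
    obtain ⟨i, _, hg⟩ := hg
    rw [mem_erase, mem_filter] at hg ⊢
    exact ⟨hg.1, mem_univ _, hg.2.2.1⟩
  have h3 := Finset.card_le_card h2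
  rw [h1, Finset.card_erase_of_mem, card_filter, hsq] at h3
  · have : 0 < h ^ 2 := by
      rw [← hsq]
      exact Nat.card_pos
    omega
  · rw [mem_filter]
    exact ⟨mem_univ _, Subgroup.one_mem _⟩

theorem Dt.expo (d : Dt G ι k v N D) {r : ℕ} (hr : r.Prime) (hrv : r ∣ v) :
    ∀ g : G, g ^ r = 1 := by
  haveI : Fact r.Prime := ⟨hr⟩
  have hk := d.hk
  have hv := d.hv
  have sep : ∀ i j, i ≠ j → ∀ a ∈ N i, ∀ b ∈ N j, ∀ a' ∈ N i, ∀ b' ∈ N j,
      a * b = a' * b' → a = a' := by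
    intro i j hij a ha b hb a' ha' b' hb' h1
    have h2 : a'⁻¹ * a = b' * b⁻¹ := by
      rw [eq_mul_inv_iff_mul_eq, mul_assoc, h1, inv_mul_cancel_left]
    have h3 : a'⁻¹ * a ∈ N i ⊓ N j := by
      refine ⟨(N i).mul_mem ((N i).inv_mem ha') ha, ?_⟩
      have h4 : b' * b⁻¹ ∈ N j := (N j).mul_mem hb' ((N j).inv_mem hb)
      rw [← h2] at h4
      exact h4
    rw [d.dis i j hij, Subgroup.mem_bot] at h3
    exact (inv_mul_eq_one.1 h3).symm
  set f : G →* G := powMonoidHom r with hf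
  obtain ⟨t, ht1, ht2, ht3⟩ := d.pack f.ker (by
    intro i j hij a ha b hb hab
    rw [MonoidHom.mem_ker, hf, powMonoidHom_apply] at hab ⊢
    rw [mul_pow] at hab
    exact sep i j hij _ ((N i).pow_mem ha r) _ ((N j).pow_mem hb r) 1 (N i).one_mem 1
      (N j).one_mem (by rw [hab, one_mul]))
  obtain ⟨u, hu1, hu2, hu3⟩ := d.pack f.range (by
    intro i j hij a ha b hb hab
    obtain ⟨x, hx⟩ := hab
    obtain ⟨c, hc, e, he, rfl⟩ := d.prod i j hij x
    rw [hf, powMonoidHom_apply, mul_pow] at hx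
    refine ⟨c, ?_⟩
    rw [hf, powMonoidHom_apply]
    exact sep i j hij _ ((N i).pow_mem hc r) _ ((N j).pow_mem he r) a ha b hb hx)
  have htu : t * u = v := by
    have h1 : Nat.card f.ker * f.ker.index = Nat.card G := Subgroup.card_mul_index _
    rw [Subgroup.index_ker, ht1, hu1, d.cG, ← mul_pow] at h1
    exact Nat.pow_left_injective (n := 2) (by norm_num) h1
  obtain ⟨i⟩ : Nonempty ι := Fintype.card_pos_iff.1 (by rw [d.cI]; omega)
  have ht : 2 ≤ t := by
    obtain ⟨⟨x, hx⟩, ho⟩ := exists_prime_orderOf_dvd_card' (G := N i) r (by rw [d.cN]; exact hrv)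
    rw [Subgroup.orderOf_mk] at ho
    have hx1 : x ≠ 1 := by
      rintro rfl
      rw [orderOf_one] at ho
      exact hr.one_lt.ne ho
    have hx2 : x ∈ f.ker ⊓ N i := by
      rw [Subgroup.mem_inf]
      refine ⟨?_, hx⟩
      rw [MonoidHom.mem_ker, hf, powMonoidHom_apply, ← ho, pow_orderOf_eq_one]
    by_contra hc
    have h3 : Nat.card (f.ker ⊓ N i : Subgroup G) ≤ 1 := by
      rw [ht2]
      omega
    have h4 := (Subgroup.card_le_one_iff_eq_bot _).1 h3
    rw [h4, Subgroup.mem_bot] at hx2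
    exact hx1 hx2
  have hvk : v < (2 * k - 1) * (2 * k - 1) := by
    obtain ⟨c, rfl⟩ : ∃ c, k = c + 3 := ⟨k - 3, by omega⟩
    have : 2 * (c + 3) - 1 = 2 * c + 5 := by omega
    rw [this]
    nlinarith
  have ht4 : 2 * k ≤ t + 1 := by
    obtain ⟨c, rfl⟩ : ∃ c, t = c + 2 := ⟨t - 2, by omega⟩
    have : c + 2 - 1 = c + 1 := by omega
    rw [this] at ht3
    by_contra hc
    push Not at hc
    nlinarith
  have hu0 : u ≤ 1 := by
    by_contra hc
    push Not at hc
    have hu4 : 2 * k ≤ u + 1 := by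
      obtain ⟨c, rfl⟩ : ∃ c, u = c + 2 := ⟨u - 2, by omega⟩
      have : c + 2 - 1 = c + 1 := by omega
      rw [this] at hu3
      by_contra hc
      push Not at hc
      nlinarith
    have : (2 * k - 1) * (2 * k - 1) ≤ t * u := Nat.mul_le_mul (by omega) (by omega)
    omega
  intro g
  have h5 : Nat.card f.range ≤ 1 := by
    rw [hu1]
    have : u ^ 2 ≤ 1 ^ 2 := Nat.pow_le_pow_left hu0 2
    simpa using this
  have h6 := (Subgroup.card_le_one_iff_eq_bot _).1 h5
  have h7 : f g ∈ f.range := ⟨g, rfl⟩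
  rw [h6, Subgroup.mem_bot] at h7
  exact h7

end

end Pool.Agent.Y389.QH
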