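import Pool.Agent.Y389.QH.Plane

set_option autoImplicit false

namespace Pool.Agent.Y389.QH

open Finset Classical

section
variable {P L G : Type} [Fintype P] [Fintype L] [Group G] [Fintype G] [MulAction G P]
  [MulAction G L] {I : P → L → Prop}

/-- the orbit as a finset -/
noncomputable def OO (G : Type) {P : Type} [Fintype P] [Group G] [MulAction G P] (p : P) :
    Finset P := univ.filter fun q => ∃ g : G, g • p = q

omit [Fintype G] in
theorem mem_OO {p q : P} : q ∈ OO G p ↔ ∃ g : G, g • p = q := by simp [OO]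

theorem card_OO (p : P) :
    (OO G p).card * Nat.card (MulAction.stabilizer G p) = Nat.card G := by
  have h := MulAction.card_orbit_mul_card_stabilizer_eq_card_group G p
  rw [Nat.card_eq_fintype_card, Nat.card_eq_fintype_card, ← h]
  congr 1
  rw [← Set.toFinset_card]
  congr 1
  ext q
  rw [mem_OO, Set.mem_toFinset, MulAction.mem_orbit_iff]

theorem numk {k v : ℕ} (hv : v + k = k ^ 2 + 1) (hk : 3 ≤ k) :
    (k ^ 2) ^ 2 + k ^ 2 + 1 = v ^ 2 + 2 * k * v ∧ k ^ 2 + k + 1 = v + 2 * k ∧ 2 * k < v := by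
  obtain ⟨j, rfl⟩ : ∃ j, k = j + 3 := ⟨k - 3, by omega⟩
  have : v = j ^ 2 + 5 * j + 7 := by nlinarith
  subst this
  refine ⟨by ring, by ring, by nlinarith⟩

/-- An element of prime order that fixes a given point with a nontrivial stabiliser, and has
at most `v` fixed points. -/
theorem exPrime {k v : ℕ} (hk : 3 ≤ k) (hv : v + k = k ^ 2 + 1)
    (pl : Pl P L I (k ^ 2)) (a : Ac P L G I)
    (cG : Nat.card G = v ^ 2) (fa : ∀ g : G, g ≠ 1 → ∃ q : P, g • q ≠ q)
    (p : P) (hp : ∃ g : G, g ≠ 1 ∧ g • p = p) :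
    ∃ h : G, h • p = p ∧ (FX P h).card ≤ v := by
  obtain ⟨hn1, hn2, hn3⟩ := numk hv hk
  obtain ⟨g, hg1, hg2⟩ := hp
  have hcard : Nat.card (MulAction.stabilizer G p) ≠ 1 := by
    intro h
    have hb := (Subgroup.card_eq_one).1 h
    have : g ∈ MulAction.stabilizer G p := MulAction.mem_stabilizer_iff.2 hg2
    rw [hb, Subgroup.mem_bot] at this
    exact hg1 this
  obtain ⟨r, hr, hrd⟩ := Nat.exists_prime_and_dvd hcard
  haveI : Fact r.Prime := ⟨hr⟩
  obtain ⟨⟨h, hh⟩, ho⟩ := exists_prime_orderOf_dvd_card' r hrd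
  rw [Subgroup.orderOf_mk] at ho
  have hh' : h • p = p := MulAction.mem_stabilizer_iff.1 hh
  have hh1 : h ≠ 1 := by
    rintro rfl
    rw [orderOf_one] at ho
    exact hr.one_lt.ne ho
  have hrv : r ∣ v := by
    have h1 : r ∣ Nat.card G := ho ▸ orderOf_dvd_natCard h
    rw [cG] at h1
    exact hr.dvd_of_dvd_pow h1
  refine ⟨h, hh', ?_⟩
  obtain ⟨m, hm, h1, h2⟩ := exC pl a hh'
  have hF := cardFX pl a hh' h1 h2
  have hsq := sq_le pl a hh' h1 h2 (fa h hh1)
  have hmk : m ≤ k := by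
    by_contra hc
    push Not at hc
    have := Nat.pow_lt_pow_left hc (two_ne_zero)
    omega
  -- the number of fixed points is divisible by r
  have hmod : Fintype.card P ≡ (FX P h).card [MOD r] := by
    have hpow : (MulAction.toEndHom h : Function.End P) ^ r ^ 1 = 1 := by
      rw [pow_one, ← ho, ← map_pow, pow_orderOf_eq_one, map_one]
    have := Equiv.Perm.card_fixedPoints_modEq (α := P)
      (f := (MulAction.toEndHom h : Function.End P)) (p := r) (n := 1) hpow
    refine this.trans ?_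
    have e : Fintype.card (Function.fixedPoints (MulAction.toEndHom h : Function.End P)) =
        (FX P h).card := by
      rw [← Set.toFinset_card]
      congr 1
      ext q
      rw [mem_FX, Set.mem_toFinset]
      rfl
    rw [← e]
  rw [pl.cP, hn1, hF] at hmod
  have hd : r ∣ m ^ 2 + m + 1 := by
    have h3 : r ∣ v ^ 2 + 2 * k * v := by
      have : v ^ 2 + 2 * k * v = v * (v + 2 * k) := by ring
      rw [this]
      exact hrv.mul_right _
    exact (Nat.modEq_zero_iff_dvd.1 (hmod.symm.trans (Nat.modEq_zero_iff_dvd.2 h3)))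
  have hmk' : m ≠ k := by
    rintro rfl
    rw [hn2] at hd
    have h4 : r ∣ 2 * m := (Nat.dvd_add_right hrv).1 hd
    have h5 : r ∣ m ^ 2 + 1 := by
      have h6 : ¬ r ∣ m := by
        intro h6
        have h7 : r ∣ v + m := dvd_add hrv h6
        rw [hv] at h7
        have h8 : r ∣ m ^ 2 := dvd_pow h6 two_ne_zero
        have h9 := (Nat.dvd_add_right h8).1 h7
        exact hr.one_lt.ne' (Nat.dvd_one.1 h9)
      have h7 : r ∣ 2 := (hr.dvd_mul.1 h4).resolve_right h6
      exfalso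
      have h8 : r = 2 := (Nat.prime_dvd_prime_iff_eq hr Nat.prime_two).1 h7
      subst h8
      -- v is odd
      have h9 : (v + m) % 2 = (m ^ 2 + 1) % 2 := by rw [hv]
      have h10 : v % 2 = 0 := Nat.mod_eq_zero_of_dvd hrv
      rcases Nat.even_or_odd m with h11 | h11
      · exact h6 h11.two_dvd
      · obtain ⟨c, rfl⟩ := h11
        have : (2 * c + 1) ^ 2 + 1 = 2 * (2 * c ^ 2 + 2 * c + 1) := by ring
        rw [this] at h9
        omega
    rcases hr.dvd_mul.1 h4 with h6 | h6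
    · have h8 : r = 2 := (Nat.prime_dvd_prime_iff_eq hr Nat.prime_two).1 h6
      subst h8
      have h9 : (v + m) % 2 = (m ^ 2 + 1) % 2 := by rw [hv]
      have h10 : v % 2 = 0 := Nat.mod_eq_zero_of_dvd hrv
      rcases Nat.even_or_odd m with h11 | h11
      · obtain ⟨c, rfl⟩ := h11
        have : (c + c) ^ 2 + 1 = 2 * (2 * c ^ 2) + 1 := by ring
        rw [this] at h9
        omega
      · obtain ⟨c, rfl⟩ := h11
        have : (2 * c + 1) ^ 2 + 1 = 2 * (2 * c ^ 2 + 2 * c + 1) := by ring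
        rw [this] at h9
        omega
    · have h7 : r ∣ v + m := dvd_add hrv h6
      rw [hv] at h7
      have h8 : r ∣ m ^ 2 := dvd_pow h6 two_ne_zero
      have h9 := (Nat.dvd_add_right h8).1 h7
      exact hr.one_lt.ne' (Nat.dvd_one.1 h9)
  rw [hF]
  obtain ⟨j, rfl⟩ : ∃ j, k = j + 1 := ⟨k - 1, by omega⟩
  have hmj : m ≤ j := by omega
  have h3 : m ^ 2 ≤ j ^ 2 := Nat.pow_le_pow_left hmj 2
  nlinarith

theorem orb_le {k v : ℕ} (hk : 3 ≤ k) (hv : v + k = k ^ 2 + 1)
    (pl : Pl P L I (k ^ 2)) (a : Ac P L G I)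
    (cG : Nat.card G = v ^ 2) (fa : ∀ g : G, g ≠ 1 → ∃ q : P, g • q ≠ q)
    (p : P) (hp : ∃ g : G, g ≠ 1 ∧ g • p = p) : (OO G p).card ≤ v := by
  obtain ⟨h, h1, h2⟩ := exPrime hk hv pl a cG fa p hp
  refine le_trans (Finset.card_le_card ?_) h2
  intro q hq
  obtain ⟨g, rfl⟩ := mem_OO.1 hq
  exact mem_FX.2 (a.qP _ _ _ h1)

theorem orb_long {v : ℕ} (cG : Nat.card G = v ^ 2) (p : P) (hp : ¬ ∃ g : G, g ≠ 1 ∧ g • p = p) :
    (OO G p).card = v ^ 2 := by
  have h := card_OO (G := G) p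
  have : MulAction.stabilizer G p = ⊥ := by
    rw [eq_bot_iff]
    intro g hg
    rw [Subgroup.mem_bot]
    by_contra hne
    exact hp ⟨g, hne, MulAction.mem_stabilizer_iff.1 hg⟩
  rw [this, Subgroup.card_bot, mul_one, cG] at h
  exact h

/-- The orbit structure. -/
structure St (P L G ι : Type) [Fintype P] [Fintype L] [Group G] [Fintype G] [MulAction G P]
    [MulAction G L] [Fintype ι] (I : P → L → Prop) (k v : ℕ) (x0 : P) (z : ι → P) : Prop where
  hk : 3 ≤ k
  hv : v + k = k ^ 2 + 1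
  pl : Pl P L I (k ^ 2)
  ac : Ac P L G I
  cG : Nat.card G = v ^ 2
  fa : ∀ g : G, g ≠ 1 → ∃ q : P, g • q ≠ q
  cI : Fintype.card ι = 2 * k
  fx : ∀ g : G, g • x0 = x0 → g = 1
  cov : ∀ q : P, (∃ g : G, g • x0 = q) ∨ ∃ i, ∃ g : G, g • z i = q
  dis : ∀ i j, ∀ g : G, g • z i = z j → i = j
  dis0 : ∀ i, ∀ g : G, g • z i ≠ x0
  cO : ∀ i, (OO G (z i)).card = v

theorem exSt {k v : ℕ} (hk : 3 ≤ k) (hv : v + k = k ^ 2 + 1)
    (pl : Pl P L I (k ^ 2)) (a : Ac P L G I)
    (cG : Nat.card G = v ^ 2) (fa : ∀ g : G, g ≠ 1 → ∃ q : P, g • q ≠ q)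
    (ho : Nat.card (MulAction.orbitRel.Quotient G P) = 2 * k + 1) :
    ∃ (ι : Type) (_ : Fintype ι) (x0 : P) (z : ι → P), St P L G ι I k v x0 z := by
  obtain ⟨hn1, hn2, hn3⟩ := numk hv hk
  let Ω := MulAction.orbitRel.Quotient G P
  haveI : Finite Ω := Quotient.finite _
  haveI : Fintype Ω := Fintype.ofFinite Ω
  have hΩ : Fintype.card Ω = 2 * k + 1 := by rw [← Nat.card_eq_fintype_card]; exact ho
  let cl : P → Ω := Quotient.mk''
  have hcl : ∀ p q : P, cl q = cl p ↔ ∃ g : G, g • p = q := by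
    intro p q
    have : cl q = cl p ↔ (MulAction.orbitRel G P) q p := Quotient.eq''
    rw [this, MulAction.orbitRel_apply, MulAction.mem_orbit_iff]
  let rep : Ω → P := Quotient.out
  have hrep : ∀ ω, cl (rep ω) = ω := fun ω => Quotient.out_eq' ω
  have hs : ∀ ω, (univ.filter fun q => cl q = ω) = OO G (rep ω) := by
    intro ω
    ext q
    rw [mem_filter, mem_OO, ← hcl, hrep]
    simp
  have hsum : ∑ ω : Ω, (OO G (rep ω)).card = v ^ 2 + 2 * k * v := by
    rw [← hn1, ← pl.cP, ← Finset.card_univ]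
    rw [Finset.card_eq_sum_card_fiberwise (f := cl) (t := (univ : Finset Ω))
      (fun _ _ => mem_univ _)]
    exact Finset.sum_congr rfl fun ω _ => by rw [hs]
  have hlong : ∃ ω0 : Ω, ¬ ∃ g : G, g ≠ 1 ∧ g • rep ω0 = rep ω0 := by
    by_contra hc
    push Not at hc
    have : ∑ ω : Ω, (OO G (rep ω)).card ≤ ∑ ω : Ω, v :=
      Finset.sum_le_sum fun ω _ => orb_le hk hv pl a cG fa _ (hc ω)
    rw [hsum, Finset.sum_const, Finset.card_univ, hΩ, smul_eq_mul] at this
    nlinarith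
  obtain ⟨ω0, h0⟩ := hlong
  have hs0 := orb_long cG _ h0
  have hsum' : ∑ ω ∈ univ.erase ω0, (OO G (rep ω)).card = 2 * k * v := by
    have := Finset.add_sum_erase univ (fun ω => (OO G (rep ω)).card) (mem_univ ω0)
    simp only [hsum, hs0] at this
    omega
  have hshort : ∀ ω, ω ≠ ω0 → ∃ g : G, g ≠ 1 ∧ g • rep ω = rep ω := by
    intro ω hω
    by_contra hc
    have h1 := orb_long cG _ hc
    have h2 : (OO G (rep ω)).card ≤ ∑ ω ∈ univ.erase ω0, (OO G (rep ω)).card :=
      Finset.single_le_sum (f := fun ω => (OO G (rep ω)).card) (fun _ _ => Nat.zero_le _)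
        (mem_erase.2 ⟨hω, mem_univ _⟩)
    rw [h1, hsum'] at h2
    nlinarith
  have hle : ∀ ω, ω ≠ ω0 → (OO G (rep ω)).card ≤ v := fun ω hω =>
    orb_le hk hv pl a cG fa _ (hshort ω hω)
  have hce : (univ.erase ω0).card = 2 * k := by
    rw [Finset.card_erase_of_mem (mem_univ _), Finset.card_univ, hΩ]
    rfl
  have heq : ∀ ω, ω ≠ ω0 → (OO G (rep ω)).card = v := by
    intro ω hω
    by_contra hne
    have hlt : (OO G (rep ω)).card < v := lt_of_le_of_ne (hle ω hω) hne
    have : ∑ ω ∈ univ.erase ω0, (OO G (rep ω)).card < ∑ ω ∈ univ.erase ω0, v :=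
      Finset.sum_lt_sum (fun ω hω => hle ω (mem_erase.1 hω).1)
        ⟨ω, mem_erase.2 ⟨hω, mem_univ _⟩, hlt⟩
    rw [hsum', Finset.sum_const, hce, smul_eq_mul] at this
    exact lt_irrefl _ this
  refine ⟨{ω : Ω // ω ≠ ω0}, inferInstance, rep ω0, fun i => rep i.1, ?_⟩
  refine ⟨hk, hv, pl, a, cG, fa, ?_, ?_, ?_, ?_, ?_, ?_⟩
  · rw [Fintype.card_subtype_compl, hΩ]
    simp
  · intro g hg
    by_contra hne
    exact h0 ⟨g, hne, hg⟩
  · intro q
    by_cases hq : cl q = ω0
    · left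
      rw [← hcl, hrep, hq]
    · right
      refine ⟨⟨cl q, hq⟩, ?_⟩
      rw [← hcl, hrep]
  · intro i j g hg
    have : cl (rep j.1) = cl (rep i.1) := (hcl _ _).2 ⟨g, hg⟩
    rw [hrep, hrep] at this
    exact Subtype.ext this.symm
  · intro i g hg
    have : cl (rep ω0) = cl (rep i.1) := (hcl _ _).2 ⟨g, hg⟩
    rw [hrep, hrep] at this
    exact i.2 this.symm
  · intro i
    exact heq i.1 i.2

end

end Pool.Agent.Y389.QH
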