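import Mathlib

set_option autoImplicit false

namespace Pool.Agent.Y389.QH

open Finset Classical

/-- A finite projective plane of order `n`, as an incidence relation. -/
structure Pl (P L : Type) [Fintype P] [Fintype L] (I : P → L → Prop) (n : ℕ) : Prop where
  join : ∀ p q : P, ∃ l, I p l ∧ I q l
  meet : ∀ l m : L, ∃ p, I p l ∧ I p m
  uniq : ∀ p q l m, I p l → I q l → I p m → I q m → p = q ∨ l = m
  pts : ∀ l, (univ.filter fun p => I p l).card = n + 1
  lns : ∀ p, (univ.filter fun l => I p l).card = n + 1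
  cP : Fintype.card P = n ^ 2 + n + 1
  cL : Fintype.card L = n ^ 2 + n + 1

theorem Pl.dual {P L : Type} [Fintype P] [Fintype L] {I : P → L → Prop} {n : ℕ}
    (h : Pl P L I n) : Pl L P (fun l p => I p l) n where
  join := h.meet
  meet := h.join
  uniq := fun p q l m h1 h2 h3 h4 => (h.uniq l m p q h1 h3 h2 h4).symm
  pts := h.lns
  lns := h.pts
  cP := h.cL
  cL := h.cP

/-- A quasiregular action without fixed points and lines. -/
structure Ac (P L G : Type) [Group G] [MulAction G P] [MulAction G L]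
    (I : P → L → Prop) : Prop where
  inc : ∀ (g : G) p l, I p l → I (g • p) (g • l)
  qP : ∀ (g h : G) (p : P), g • p = p → g • (h • p) = h • p
  qL : ∀ (g h : G) (l : L), g • l = l → g • (h • l) = h • l
  nP : ∀ p : P, ∃ g : G, g • p ≠ p
  nL : ∀ l : L, ∃ g : G, g • l ≠ l

theorem Ac.dual {P L G : Type} [Group G] [MulAction G P] [MulAction G L]
    {I : P → L → Prop} (h : Ac P L G I) : Ac L P G (fun l p => I p l) where
  inc := fun g l p => h.inc g p l
  qP := h.qL
  qL := h.qP
  nP := h.nL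
  nL := h.nP

section
variable {P L G : Type} [Fintype P] [Fintype L] [Group G] [MulAction G P] [MulAction G L]
  {I : P → L → Prop} {n : ℕ}

theorem Ac.inc' (a : Ac P L G I) (g : G) (p : P) (l : L) (h : I (g • p) l) : I p (g⁻¹ • l) := by
  have := a.inc g⁻¹ _ _ h
  rwa [inv_smul_smul] at this

theorem off (pl : Pl P L I n) (a : Ac P L G I) (p : P) (l : L) : ∃ h : G, ¬ I (h • p) l := by
  by_contra hc
  push Not at hc
  obtain ⟨g0, hg0⟩ := a.nP p
  obtain ⟨g, hg⟩ := a.nL l
  have h1 : I p (g • l) := by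
    have := a.inc g _ _ (hc g⁻¹)
    rwa [smul_inv_smul] at this
  have h2 : I (g0 • p) (g • l) := by
    have := a.inc g _ _ (hc (g⁻¹ * g0))
    rwa [mul_smul, smul_inv_smul] at this
  have h3 : I p l := by simpa using hc 1
  rcases pl.uniq _ _ _ _ (hc g0) h3 h2 h1 with h | h
  · exact hg0 h
  · exact hg h.symm

/-- fixed lines through `p` -/
noncomputable def dd (L : Type) {P G : Type} [Fintype L] [Group G] [MulAction G L] (I : P → L → Prop)
    (g : G) (p : P) : Finset L := univ.filter fun l => g • l = l ∧ I p l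

/-- fixed points on `l` -/
noncomputable def ee (P : Type) {L G : Type} [Fintype P] [Group G] [MulAction G P] (I : P → L → Prop)
    (g : G) (l : L) : Finset P := univ.filter fun p => g • p = p ∧ I p l

/-- fixed points -/
noncomputable def FX (P : Type) {G : Type} [Fintype P] [Group G] [MulAction G P] (g : G) :
    Finset P := univ.filter fun p => g • p = p

theorem mem_FX {g : G} {p : P} : p ∈ FX P g ↔ g • p = p := by simp [FX]

theorem mem_dd {g : G} {p : P} {l : L} : l ∈ dd L I g p ↔ g • l = l ∧ I p l := by simp [dd]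

theorem mem_ee {g : G} {p : P} {l : L} : p ∈ ee P I g l ↔ g • p = p ∧ I p l := by simp [ee]

theorem fixJoin (pl : Pl P L I n) (a : Ac P L G I) {g : G} {p q : P} {l : L} (hpq : p ≠ q)
    (hp : g • p = p) (hq : g • q = q) (h1 : I p l) (h2 : I q l) : g • l = l := by
  have h3 := a.inc g _ _ h1
  have h4 := a.inc g _ _ h2
  rw [hp] at h3
  rw [hq] at h4
  rcases pl.uniq _ _ _ _ h3 h4 h1 h2 with h | h
  · exact absurd h hpq
  · exact h

theorem ee_le_dd (pl : Pl P L I n) (a : Ac P L G I) {g : G} {p : P} {l : L}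
    (hp : g • p = p) (hpl : ¬ I p l) : (ee P I g l).card ≤ (dd L I g p).card := by
  choose f hf using fun q => pl.join p q
  refine Finset.card_le_card_of_injOn f ?_ ?_
  · intro q hq
    rw [mem_coe, mem_ee] at hq
    rw [mem_coe, mem_dd]
    refine ⟨fixJoin pl a ?_ hp hq.1 (hf q).1 (hf q).2, (hf q).1⟩
    rintro rfl
    exact hpl hq.2
  · intro q hq q' hq' e
    rw [mem_coe, mem_ee] at hq hq'
    rcases pl.uniq _ _ _ _ hq.2 hq'.2 (hf q).2 (e ▸ (hf q').2) with h | h
    · exact h
    · exact absurd (h ▸ (hf q).1) hpl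

theorem dd_smul_le (a : Ac P L G I) (g h : G) (p : P) :
    (dd L I g p).card ≤ (dd L I g (h • p)).card := by
  refine Finset.card_le_card_of_injOn (fun l => h • l) ?_ ?_
  · intro l hl
    rw [mem_coe, mem_dd] at hl ⊢
    exact ⟨a.qL _ _ _ hl.1, a.inc _ _ _ hl.2⟩
  · intro l _ m _ e
    exact smul_left_cancel h e

theorem dd_smul (a : Ac P L G I) (g h : G) (p : P) :
    (dd L I g (h • p)).card = (dd L I g p).card := by
  refine le_antisymm ?_ (dd_smul_le a g h p)
  have := dd_smul_le a g h⁻¹ (h • p)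
  rwa [inv_smul_smul] at this

theorem dd_eq_ee (pl : Pl P L I n) (a : Ac P L G I) {g : G} {p : P} {l : L}
    (hp : g • p = p) (hl : g • l = l) : (dd L I g p).card = (ee P I g l).card := by
  obtain ⟨h, hh⟩ := off pl a p l
  rw [← dd_smul a g h p]
  refine le_antisymm ?_ (ee_le_dd pl a (a.qP _ _ _ hp) hh)
  exact ee_le_dd (P := L) (L := P) pl.dual a.dual hl hh

/-- a fixed point gives a fixed line -/
theorem exL (pl : Pl P L I n) (a : Ac P L G I) {g : G} {p : P} (hp : g • p = p) :
    ∃ l : L, g • l = l ∧ I p l ∧ 2 ≤ (ee P I g l).card := by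
  obtain ⟨h, hh⟩ := a.nP p
  obtain ⟨l, h1, h2⟩ := pl.join p (h • p)
  refine ⟨l, fixJoin pl a (Ne.symm hh) hp (a.qP _ _ _ hp) h1 h2, h1, ?_⟩
  have : ({p, h • p} : Finset P) ⊆ ee P I g l := by
    intro q hq
    rw [mem_insert, mem_singleton] at hq
    rw [mem_ee]
    rcases hq with rfl | rfl
    · exact ⟨hp, h1⟩
    · exact ⟨a.qP _ _ _ hp, h2⟩
  calc 2 = ({p, h • p} : Finset P).card := (Finset.card_pair (Ne.symm hh)).symm
    _ ≤ _ := Finset.card_le_card this

/-- The fixed structure: a number `c = m + 1` such that all fixed lines carry `c` fixed points and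
all fixed points lie on `c` fixed lines. -/
theorem exC (pl : Pl P L I n) (a : Ac P L G I) {g : G} {p : P} (hp : g • p = p) :
    ∃ m : ℕ, 1 ≤ m ∧ (∀ q : P, g • q = q → (dd L I g q).card = m + 1) ∧
      (∀ l : L, g • l = l → (ee P I g l).card = m + 1) := by
  obtain ⟨l, h1, h2, h3⟩ := exL pl a hp
  refine ⟨(ee P I g l).card - 1, by omega, ?_, ?_⟩
  · intro q hq
    rw [dd_eq_ee pl a hq h1]
    omega
  · intro l' hl'
    rw [← dd_eq_ee pl a hp hl', dd_eq_ee pl a hp h1]
    omega

theorem cardFX (pl : Pl P L I n) (a : Ac P L G I) {g : G} {p : P} (hp : g • p = p) {m : ℕ}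
    (h1 : ∀ q : P, g • q = q → (dd L I g q).card = m + 1)
    (h2 : ∀ l : L, g • l = l → (ee P I g l).card = m + 1) :
    (FX P g).card = m ^ 2 + m + 1 := by
  have key := Finset.sum_card_bipartiteAbove_eq_sum_card_bipartiteBelow
    (s := (FX P g).erase p) (t := dd L I g p) (fun q l => I q l)
  have e1 : ∀ q ∈ (FX P g).erase p,
      ((dd L I g p).bipartiteAbove (fun q l => I q l) q).card = 1 := by
    intro q hq
    rw [mem_erase, mem_FX] at hq
    rw [Finset.card_eq_one]
    obtain ⟨l, hl1, hl2⟩ := pl.join p q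
    refine ⟨l, ?_⟩
    ext l'
    rw [Finset.mem_bipartiteAbove, mem_dd, mem_singleton]
    constructor
    · rintro ⟨⟨_, h3⟩, h4⟩
      rcases pl.uniq _ _ _ _ h3 h4 hl1 hl2 with h | h
      · exact absurd h.symm hq.1
      · exact h
    · rintro rfl
      exact ⟨⟨fixJoin pl a (Ne.symm hq.1) hp hq.2 hl1 hl2, hl1⟩, hl2⟩
  have e2 : ∀ l ∈ dd L I g p,
      (((FX P g).erase p).bipartiteBelow (fun q l => I q l) l).card = m := by
    intro l hl
    rw [mem_dd] at hl
    have : ((FX P g).erase p).bipartiteBelow (fun q l => I q l) l = (ee P I g l).erase p := by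
      ext q
      rw [Finset.mem_bipartiteBelow, mem_erase, mem_erase, mem_FX, mem_ee]
      tauto
    rw [this, Finset.card_erase_of_mem (mem_ee.2 ⟨hp, hl.2⟩), h2 l hl.1]
    rfl
  rw [Finset.sum_congr rfl e1, Finset.sum_congr rfl e2] at key
  simp only [sum_const, smul_eq_mul, mul_one] at key
  rw [h1 p hp, Finset.card_erase_of_mem (mem_FX.2 hp)] at key
  have hpos : 0 < (FX P g).card := Finset.card_pos.2 ⟨p, mem_FX.2 hp⟩
  have : (FX P g).card = (m + 1) * m + 1 := by omega
  rw [this]
  ring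

theorem sq_le (pl : Pl P L I n) (a : Ac P L G I) {g : G} {p : P} (hp : g • p = p) {m : ℕ}
    (h1 : ∀ q : P, g • q = q → (dd L I g q).card = m + 1)
    (h2 : ∀ l : L, g • l = l → (ee P I g l).card = m + 1)
    (hne : ∃ q : P, g • q ≠ q) : m ^ 2 ≤ n := by
  have hF := cardFX pl a hp h1 h2
  obtain ⟨l, hl1, hl2, hl3⟩ := exL pl a hp
  -- a point on `l` which is not fixed
  have hx : ∃ x, I x l ∧ g • x ≠ x := by
    by_contra hc
    push Not at hc
    have h3 : ee P I g l = univ.filter fun p => I p l := by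
      ext q
      rw [mem_ee, mem_filter]
      exact ⟨fun h => ⟨mem_univ _, h.2⟩, fun h => ⟨hc q h.2, h.2⟩⟩
    have h4 := h2 l hl1
    rw [h3, pl.pts] at h4
    have h5 : m = n := by omega
    subst h5
    have h6 : FX P g = univ := by
      rw [← Finset.card_eq_iff_eq_univ, hF, pl.cP]
    obtain ⟨q, hq⟩ := hne
    exact hq (mem_FX.1 (h6 ▸ mem_univ q))
  obtain ⟨x, hx1, hx2⟩ := hx
  have h3 : ((FX P g) \ (ee P I g l)).card = m ^ 2 := by
    rw [Finset.card_sdiff_of_subset, hF, h2 l hl1]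
    · omega
    · intro q hq
      rw [mem_ee] at hq
      exact mem_FX.2 hq.1
  rw [← h3]
  have h4 : ((univ.filter fun l => I x l).erase l).card = n := by
    rw [Finset.card_erase_of_mem (by simpa using hx1), pl.lns]
    rfl
  rw [← h4]
  choose f hf using fun q => pl.join x q
  refine Finset.card_le_card_of_injOn f ?_ ?_
  · intro q hq
    rw [mem_coe, mem_sdiff, mem_FX, mem_ee] at hq
    rw [mem_coe, mem_erase, mem_filter]
    refine ⟨?_, mem_univ _, (hf q).1⟩
    intro e
    exact hq.2 ⟨hq.1, e ▸ (hf q).2⟩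
  · intro q hq q' hq' e
    rw [mem_coe, mem_sdiff, mem_FX, mem_ee] at hq hq'
    by_contra hne
    have h5 : g • f q = f q :=
      fixJoin pl a hne hq.1 hq'.1 (hf q).2 (e ▸ (hf q').2)
    have h6 : f q ≠ l := by
      intro e
      exact hq.2 ⟨hq.1, e ▸ (hf q).2⟩
    exact hx2 (fixJoin (P := L) (L := P) pl.dual a.dual h6 h5 hl1 (hf q).1 hx1)

end

end Pool.Agent.Y389.QH
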