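import Pool.Agent.Y389.QH.Ring

set_option autoImplicit false

namespace Pool.Agent.Y389.QH

open Finset Classical MonoidAlgebra

section
variable {G : Type} [CommGroup G] [Fintype G]

/-- The indicator of a set in the group ring. -/
noncomputable def el (S : Finset G) : MonoidAlgebra ℤ G :=
  ofCoeff (Finsupp.equivFunOnFinite.symm fun g => if g ∈ S then 1 else 0)

theorem el_coeff (S : Finset G) (g : G) : (el S).coeff g = if g ∈ S then 1 else 0 := rfl

theorem mul_coeff (x y : MonoidAlgebra ℤ G) (g : G) :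
    (x * y).coeff g = ∑ h, x.coeff h * y.coeff (h⁻¹ * g) := by
  rw [coeff_mul_apply_left, Finsupp.sum_fintype _ _ (fun _ => by simp)]

omit [Fintype G] in
theorem int_coeff (n : ℤ) (x : MonoidAlgebra ℤ G) (g : G) :
    ((n : MonoidAlgebra ℤ G) * x).coeff g = n * x.coeff g := by
  rw [← zsmul_eq_mul]
  rfl

omit [Fintype G] in
theorem nat_coeff (n : ℕ) (x : MonoidAlgebra ℤ G) (g : G) :
    ((n : MonoidAlgebra ℤ G) * x).coeff g = n * x.coeff g := by
  have := int_coeff (n : ℤ) x g
  rwa [Int.cast_natCast] at this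

omit [Fintype G] in
theorem add_coeff (x y : MonoidAlgebra ℤ G) (g : G) :
    (x + y).coeff g = x.coeff g + y.coeff g := rfl

omit [Fintype G] in
theorem sub_coeff (x y : MonoidAlgebra ℤ G) (g : G) :
    (x - y).coeff g = x.coeff g - y.coeff g := rfl

omit [Fintype G] in
theorem sum_coeff {κ : Type} (s : Finset κ) (f : κ → MonoidAlgebra ℤ G) (g : G) :
    (∑ i ∈ s, f i).coeff g = ∑ i ∈ s, (f i).coeff g := by
  induction s using Finset.induction_on with
  | empty => simp
  | insert a s ha ih => rw [Finset.sum_insert ha, Finset.sum_insert ha, add_coeff, ih]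

theorem mul_gs (x : MonoidAlgebra ℤ G) :
    x * el univ = ((∑ h, x.coeff h : ℤ) : MonoidAlgebra ℤ G) * el univ := by
  ext g
  rw [mul_coeff, int_coeff, el_coeff]
  simp [el_coeff]

theorem el_mul_gs (S : Finset G) :
    el S * el univ = (S.card : MonoidAlgebra ℤ G) * el univ := by
  rw [mul_gs]
  have : (∑ h, (el S).coeff h : ℤ) = S.card := by
    simp [el_coeff]
  rw [this, Int.cast_natCast]

theorem bar_el_univ : bar ℤ (el (univ : Finset G)) = el univ := by
  ext g
  rw [bar_coeff, el_coeff, el_coeff]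
  simp

/-- The indicator of a subgroup. -/
noncomputable def nn (H : Subgroup G) : MonoidAlgebra ℤ G := el (univ.filter fun g => g ∈ H)

theorem nn_coeff (H : Subgroup G) (g : G) : (nn H).coeff g = if g ∈ H then 1 else 0 := by
  simp [nn, el_coeff]

theorem bar_nn (H : Subgroup G) : bar ℤ (nn H) = nn H := by
  ext g
  rw [bar_coeff, nn_coeff, nn_coeff]
  simp

theorem card_filter (H : Subgroup G) : (univ.filter fun g => g ∈ H).card = Nat.card H := by
  rw [Nat.card_eq_fintype_card, Fintype.card_subtype]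

theorem nn_mul_gs (H : Subgroup G) :
    nn H * el univ = (Nat.card H : MonoidAlgebra ℤ G) * el univ := by
  rw [nn, el_mul_gs, card_filter]

theorem nn_mul_self (H : Subgroup G) :
    nn H * nn H = (Nat.card H : MonoidAlgebra ℤ G) * nn H := by
  ext g
  rw [mul_coeff, nat_coeff, nn_coeff]
  by_cases hg : g ∈ H
  · rw [if_pos hg, mul_one, ← card_filter, Finset.card_filter]
    push_cast
    refine Finset.sum_congr rfl fun h _ => ?_
    rw [nn_coeff, nn_coeff]
    by_cases hh : h ∈ H
    · have : h⁻¹ * g ∈ H := H.mul_mem (H.inv_mem hh) hg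
      rw [if_pos hh, if_pos this, mul_one]
    · rw [if_neg hh, zero_mul]
  · rw [if_neg hg, mul_zero]
    refine Finset.sum_eq_zero fun h _ => ?_
    rw [nn_coeff, nn_coeff]
    by_cases hh : h ∈ H
    · have : h⁻¹ * g ∉ H := fun h1 => hg (by
        have := H.mul_mem hh h1
        rwa [mul_inv_cancel_left] at this)
      rw [if_neg this, mul_zero]
    · rw [if_neg hh, zero_mul]

theorem nn_mul_nn (H K : Subgroup G) (h1 : H ⊓ K = ⊥)
    (h2 : ∀ g : G, ∃ a ∈ H, ∃ b ∈ K, a * b = g) : nn H * nn K = el univ := by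
  ext g
  rw [mul_coeff, el_coeff, if_pos (mem_univ _)]
  obtain ⟨a, ha, b, hb, rfl⟩ := h2 g
  rw [Finset.sum_eq_single a]
  · rw [nn_coeff, nn_coeff, if_pos ha, inv_mul_cancel_left, if_pos hb, one_mul]
  · intro c _ hc
    rw [nn_coeff, nn_coeff]
    by_cases h3 : c ∈ H
    · by_cases h4 : c⁻¹ * (a * b) ∈ K
      · exfalso
        have h5 : c⁻¹ * a ∈ K := by
          have := K.mul_mem h4 (K.inv_mem hb)
          rwa [← mul_assoc, mul_inv_cancel_right] at this
        have h6 : c⁻¹ * a ∈ H ⊓ K := ⟨H.mul_mem (H.inv_mem h3) ha, h5⟩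
        rw [h1, Subgroup.mem_bot] at h6
        exact hc (inv_mul_eq_one.1 h6)
      · rw [if_neg h4, mul_zero]
    · rw [if_neg h3, zero_mul]
  · intro h
    exact absurd (mem_univ _) h

/-- The data of a difference set. -/
structure Dt (G ι : Type) [CommGroup G] [Fintype G] [Fintype ι] (k v : ℕ) (N : ι → Subgroup G)
    (D : Finset G) : Prop where
  hk : 3 ≤ k
  hv : v + k = k ^ 2 + 1
  cG : Nat.card G = v ^ 2
  cI : Fintype.card ι = 2 * k
  cN : ∀ i, Nat.card (N i) = v
  dis : ∀ i j, i ≠ j → N i ⊓ N j = ⊥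
  prod : ∀ i j, i ≠ j → ∀ g, ∃ a ∈ N i, ∃ b ∈ N j, a * b = g
  cD : D.card = (k - 1) ^ 2
  h0 : ∀ i, ∀ x ∈ D, ∀ y ∈ D, y * x⁻¹ ∈ N i → x = y
  h1 : ∀ g : G, (∀ i, g ∉ N i) → ∃! x, x ∈ D ∧ g * x ∈ D

variable {ι : Type} [Fintype ι] {k v : ℕ} {N : ι → Subgroup G} {D : Finset G}

/-- the sum of the subgroups -/
noncomputable def ss (N : ι → Subgroup G) : MonoidAlgebra ℤ G := ∑ i, nn (N i)

theorem ss_coeff (g : G) : (ss N).coeff g = ∑ i, if g ∈ N i then (1 : ℤ) else 0 := by
  rw [ss, sum_coeff]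
  exact Finset.sum_congr rfl fun i _ => nn_coeff _ _

theorem Dt.vz (d : Dt G ι k v N D) : (v : ℤ) = k ^ 2 - k + 1 := by
  have := d.hv
  have h : (v : ℤ) + k = k ^ 2 + 1 := by exact_mod_cast this
  linarith

theorem Dt.nz (d : Dt G ι k v N D) : ((k - 1 : ℕ) : ℤ) = k - 1 := by
  have := d.hk
  push_cast [Nat.cast_sub (show 1 ≤ k by omega)]
  ring

theorem bar_ss : bar ℤ (ss N) = ss N := by
  rw [ss, map_sum]
  exact Finset.sum_congr rfl fun i _ => bar_nn _

theorem Dt.gg (d : Dt G ι k v N D) : (el univ * el univ : MonoidAlgebra ℤ G) =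
    (v : MonoidAlgebra ℤ G) ^ 2 * el univ := by
  rw [el_mul_gs, Finset.card_univ, ← Nat.card_eq_fintype_card, d.cG, Nat.cast_pow]

theorem Dt.ng (d : Dt G ι k v N D) (i : ι) : nn (N i) * el univ =
    (v : MonoidAlgebra ℤ G) * el univ := by
  rw [nn_mul_gs, d.cN]

theorem Dt.nself (d : Dt G ι k v N D) (i : ι) : nn (N i) * nn (N i) =
    (v : MonoidAlgebra ℤ G) * nn (N i) := by
  rw [nn_mul_self, d.cN]

theorem Dt.ns (d : Dt G ι k v N D) (i : ι) : nn (N i) * ss N =
    (v : MonoidAlgebra ℤ G) * nn (N i) + (2 * (k : MonoidAlgebra ℤ G) - 1) * el univ := by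
  rw [ss, Finset.mul_sum, ← Finset.add_sum_erase _ _ (mem_univ i), d.nself]
  congr 1
  have : ∀ j ∈ univ.erase i, nn (N i) * nn (N j) = el univ := by
    intro j hj
    rw [mem_erase] at hj
    exact nn_mul_nn _ _ (d.dis _ _ hj.1.symm) (d.prod _ _ hj.1.symm)
  rw [Finset.sum_congr rfl this, Finset.sum_const, Finset.card_erase_of_mem (mem_univ _),
    Finset.card_univ, d.cI, nsmul_eq_mul]
  have hk := d.hk
  rw [Nat.cast_sub (by omega)]
  push_cast
  ring

theorem Dt.sg (d : Dt G ι k v N D) : ss N * el univ =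
    2 * (k : MonoidAlgebra ℤ G) * (v : MonoidAlgebra ℤ G) * el univ := by
  rw [ss, Finset.sum_mul, Finset.sum_congr rfl (fun i _ => d.ng i), Finset.sum_const,
    Finset.card_univ, d.cI, nsmul_eq_mul]
  push_cast
  ring

theorem Dt.s2 (d : Dt G ι k v N D) : ss N * ss N = (v : MonoidAlgebra ℤ G) * ss N +
    2 * (k : MonoidAlgebra ℤ G) * (2 * (k : MonoidAlgebra ℤ G) - 1) * el univ := by
  have : ss N * ss N = ∑ i, nn (N i) * ss N := by
    rw [← Finset.sum_mul]
    rfl
  rw [this, Finset.sum_congr rfl (fun i _ => d.ns i), Finset.sum_add_distrib, ← Finset.mul_sum,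
    ← ss, Finset.sum_const, Finset.card_univ, d.cI, nsmul_eq_mul]
  push_cast
  ring

theorem Dt.dg (d : Dt G ι k v N D) : el D * el univ =
    ((k : MonoidAlgebra ℤ G) - 1) ^ 2 * el univ := by
  rw [el_mul_gs, d.cD]
  have hk := d.hk
  push_cast [Nat.cast_sub (show 1 ≤ k by omega)]
  ring

theorem Dt.dbd (d : Dt G ι k v N D) : el D * bar ℤ (el D) =
    (k : MonoidAlgebra ℤ G) ^ 2 + el univ - ss N := by
  have hk := d.hk
  ext g
  have e1 : (el D * bar ℤ (el D)).coeff g =
      ((D.filter fun x => g⁻¹ * x ∈ D).card : ℤ) := by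
    rw [mul_coeff, Finset.card_filter]
    push_cast
    rw [← Finset.sum_filter_add_sum_filter_not univ (fun x => x ∈ D)]
    rw [Finset.sum_eq_zero (s := univ.filter fun x => x ∉ D), add_zero]
    · have : univ.filter (fun x => x ∈ D) = D := by ext; simp
      rw [this]
      refine Finset.sum_congr rfl fun x hx => ?_
      rw [el_coeff, if_pos hx, one_mul, bar_coeff, el_coeff]
      have : (x⁻¹ * g)⁻¹ = g⁻¹ * x := by rw [mul_inv_rev, inv_inv]
      rw [this]
    · intro x hx
      rw [mem_filter] at hx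
      rw [el_coeff, if_neg hx.2, zero_mul]
  have e2 : ((k : MonoidAlgebra ℤ G) ^ 2 + el univ - ss N).coeff g =
      (if g = 1 then (k : ℤ) ^ 2 else 0) + 1 - ∑ i, if g ∈ N i then (1 : ℤ) else 0 := by
    rw [sub_coeff, add_coeff, ss_coeff, el_coeff, if_pos (mem_univ _)]
    congr 2
    have : (k : MonoidAlgebra ℤ G) ^ 2 = ((k ^ 2 : ℕ) : MonoidAlgebra ℤ G) := by push_cast; rfl
    rw [this, natCast_def, coeff_single, Finsupp.single_apply]
    by_cases h : g = 1
    · subst h; simp
    · rw [if_neg (Ne.symm h), if_neg h]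
  rw [e1, e2]
  by_cases hg : g = 1
  · subst hg
    simp only [inv_one, one_mul, if_true, Subgroup.one_mem, Finset.sum_const, Finset.card_univ,
      d.cI]
    have : D.filter (fun x => x ∈ D) = D := by ext; simp
    rw [this, d.cD]
    push_cast [Nat.cast_sub (show 1 ≤ k by omega)]
    ring
  · rw [if_neg hg, zero_add]
    by_cases hN : ∃ i, g ∈ N i
    · obtain ⟨i, hi⟩ := hN
      have e3 : (∑ j, if g ∈ N j then (1 : ℤ) else 0) = 1 := by
        rw [Finset.sum_eq_single i]
        · rw [if_pos hi]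
        · intro j _ hj
          rw [if_neg]
          intro hgj
          have : g ∈ N i ⊓ N j := ⟨hi, hgj⟩
          rw [d.dis i j hj.symm, Subgroup.mem_bot] at this
          exact hg this
        · intro h
          exact absurd (mem_univ _) h
      rw [e3]
      have e4 : (D.filter fun x => g⁻¹ * x ∈ D) = ∅ := by
        rw [Finset.filter_eq_empty_iff]
        intro x hx hx'
        have h2 : x * (g⁻¹ * x)⁻¹ ∈ N i := by
          have : x * (g⁻¹ * x)⁻¹ = g := by
            rw [mul_inv_rev, inv_inv, ← mul_assoc, mul_inv_cancel, one_mul]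
          rw [this]
          exact hi
        have h3 := d.h0 i _ hx' _ hx h2
        apply hg
        have h4 : g⁻¹ = 1 := mul_eq_right.1 h3
        exact inv_eq_one.1 h4
      rw [e4]
      simp
    · push Not at hN
      have e3 : (∑ j, if g ∈ N j then (1 : ℤ) else 0) = 0 :=
        Finset.sum_eq_zero fun j _ => if_neg (hN j)
      rw [e3, sub_zero]
      obtain ⟨x, ⟨hx1, hx2⟩, hx3⟩ := d.h1 g hN
      have e4 : (D.filter fun x => g⁻¹ * x ∈ D) = {g * x} := by
        ext y
        rw [mem_filter, mem_singleton]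
        constructor
        · rintro ⟨h2, h3⟩
          have := hx3 (g⁻¹ * y) ⟨h3, by rwa [mul_inv_cancel_left]⟩
          rw [← this, mul_inv_cancel_left]
        · rintro rfl
          exact ⟨hx2, by rwa [inv_mul_cancel_left]⟩
      rw [e4]
      simp

end

end Pool.Agent.Y389.QH
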