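import Mathlib

set_option autoImplicit false

namespace Pool.Agent.Y389.QH

open Finset Classical MonoidAlgebra

section
variable {G : Type} [CommGroup G]

/-- The inversion on a group ring. -/
noncomputable def bar (R : Type) [CommRing R] : MonoidAlgebra R G →+* MonoidAlgebra R G :=
  mapDomainRingHom R (invMonoidHom : G →* G)

theorem bar_single (R : Type) [CommRing R] (g : G) (a : R) :
    bar R (single g a) = single g⁻¹ a := by
  simp [bar, mapDomainRingHom]

theorem bar_coeff (R : Type) [CommRing R] (y : MonoidAlgebra R G) (g : G) :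
    (bar R y).coeff g = y.coeff g⁻¹ := by
  have h := Finsupp.mapDomain_apply (f := fun x : G => x⁻¹) inv_injective y.coeff g⁻¹
  rw [inv_inv] at h
  exact h

theorem red {l j : ℕ} [Fact l.Prime] (hj : ∀ g : G, g ^ (l ^ j) = g⁻¹) (h2 : 2 ≤ l ^ j)
    (y : MonoidAlgebra (ZMod l) G) (hy : y * bar (ZMod l) y = 0) : y = 0 := by
  haveI : CharP (MonoidAlgebra (ZMod l) G) l :=
    charP_of_injective_algebraMap (algebraMap (ZMod l) (MonoidAlgebra (ZMod l) G)).injective l
  haveI : ExpChar (MonoidAlgebra (ZMod l) G) l := ExpChar.prime Fact.out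
  have key : iterateFrobenius (MonoidAlgebra (ZMod l) G) l j = bar (ZMod l) := by
    apply ringHom_ext
    · intro r
      rw [iterateFrobenius_def, single_pow, bar_single, one_pow, inv_one, ZMod.pow_card_pow]
    · intro m
      rw [iterateFrobenius_def, single_pow, bar_single, one_pow, hj]
  have h1 : ∀ x : MonoidAlgebra (ZMod l) G, bar (ZMod l) x = x ^ (l ^ j) := fun x => by
    rw [← key, iterateFrobenius_def]
  have h3 : bar (ZMod l) (bar (ZMod l) y) = y := by
    ext g
    rw [bar_coeff, bar_coeff, inv_inv]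
  have h4 : y ^ (l ^ j + 1) = 0 := by
    rw [pow_succ, ← h1, mul_comm]
    exact hy
  have h5 : y = y ^ (l ^ j * l ^ j) := by
    rw [pow_mul, ← h1, ← h1, h3]
  rw [h5]
  exact pow_eq_zero_of_le (by nlinarith) h4

/-- reduction of an integral element -/
theorem red_int {l j : ℕ} [Fact l.Prime] (hj : ∀ g : G, g ^ (l ^ j) = g⁻¹) (h2 : 2 ≤ l ^ j)
    (y w : MonoidAlgebra ℤ G) (hy : y * bar ℤ y = (l : MonoidAlgebra ℤ G) * w) :
    ∃ y' : MonoidAlgebra ℤ G, y = (l : MonoidAlgebra ℤ G) * y' := by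
  have hcomp : ∀ x : MonoidAlgebra ℤ G, mapRingHom G (Int.castRingHom (ZMod l)) (bar ℤ x) =
      bar (ZMod l) (mapRingHom G (Int.castRingHom (ZMod l)) x) := by
    intro x
    ext g
    rw [coeff_mapRingHom, bar_coeff, bar_coeff, coeff_mapRingHom]
  have h3 := congrArg (mapRingHom G (Int.castRingHom (ZMod l))) hy
  rw [map_mul, hcomp, map_mul, map_natCast] at h3
  have h4 : (l : MonoidAlgebra (ZMod l) G) = 0 := by
    have : ((l : ZMod l)) = 0 := ZMod.natCast_self l
    have h5 : (algebraMap (ZMod l) (MonoidAlgebra (ZMod l) G)) (l : ZMod l) = 0 := by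
      rw [this, map_zero]
    rwa [map_natCast] at h5
  rw [h4, zero_mul] at h3
  have h5 := red hj h2 _ h3
  have h6 : ∀ g, (l : ℤ) ∣ y.coeff g := by
    intro g
    have h7 : (mapRingHom G (Int.castRingHom (ZMod l)) y).coeff g = 0 := by rw [h5]; rfl
    rw [coeff_mapRingHom] at h7
    exact (ZMod.intCast_zmod_eq_zero_iff_dvd _ _).1 h7
  choose f hf using h6
  refine ⟨ofCoeff (Finsupp.mapRange (fun n : ℤ => n / (l : ℤ)) (by simp) y.coeff), ?_⟩
  ext g
  rw [← nsmul_eq_mul]
  change y.coeff g = (l • (Finsupp.mapRange (fun n : ℤ => n / (l : ℤ)) (by simp) y.coeff)) g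
  rw [Finsupp.smul_apply, Finsupp.mapRange_apply, nsmul_eq_mul]
  exact (Int.mul_ediv_cancel' ⟨f g, hf g⟩).symm

theorem lift_int {l j : ℕ} [Fact l.Prime] (hj : ∀ g : G, g ^ (l ^ j) = g⁻¹) (h2 : 2 ≤ l ^ j)
    (a : ℕ) : ∀ (y w : MonoidAlgebra ℤ G),
    y * bar ℤ y = (l : MonoidAlgebra ℤ G) ^ (2 * a) * w →
    ∃ y' : MonoidAlgebra ℤ G, y = (l : MonoidAlgebra ℤ G) ^ a * y' := by
  have hreg : ∀ x y : MonoidAlgebra ℤ G, (l : MonoidAlgebra ℤ G) * x = l * y → x = y := by
    intro x y hxy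
    have hl : (l : ℤ) ≠ 0 := by exact_mod_cast (Fact.out : l.Prime).ne_zero
    ext g
    have h := congrArg (fun u : MonoidAlgebra ℤ G => u.coeff g) hxy
    simp only [← nsmul_eq_mul] at h
    have h' : l • x.coeff g = l • y.coeff g := h
    rw [nsmul_eq_mul, nsmul_eq_mul] at h'
    exact mul_left_cancel₀ hl h'
  induction a with
  | zero => intro y w _; exact ⟨y, by simp⟩
  | succ a ih =>
    intro y w hy
    obtain ⟨y1, rfl⟩ := red_int hj h2 y ((l : MonoidAlgebra ℤ G) ^ (2 * a + 1) * w) (by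
      rw [hy]; ring)
    rw [map_mul, map_natCast] at hy
    have h3 : y1 * bar ℤ y1 = (l : MonoidAlgebra ℤ G) ^ (2 * a) * w := by
      apply hreg
      apply hreg
      linear_combination hy
    obtain ⟨y', rfl⟩ := ih y1 w h3
    exact ⟨y', by ring⟩

end

end Pool.Agent.Y389.QH
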