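import Pool.Agent.Y389.QH.Orb

set_option autoImplicit false

namespace Pool.Agent.Y389.QH

open Finset Classical

section
variable {P L G ι : Type} [Fintype P] [Fintype L] [Group G] [Fintype G] [MulAction G P]
  [MulAction G L] [Fintype ι] {I : P → L → Prop} {k v : ℕ} {x0 : P} {z : ι → P}

/-- transport of fixed points along orbits -/
theorem fixO (a : Ac P L G I) {g : G} {p q : P} (hg : g • p = p) (hq : q ∈ OO G p) :
    g • q = q := by
  obtain ⟨h, rfl⟩ := mem_OO.1 hq
  exact a.qP _ _ _ hg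

theorem symO {p q : P} (hq : q ∈ OO G p) : p ∈ OO G q := by
  obtain ⟨h, rfl⟩ := mem_OO.1 hq
  exact mem_OO.2 ⟨h⁻¹, by simp⟩

theorem selfO (p : P) : p ∈ OO G p := mem_OO.2 ⟨1, by simp⟩

theorem St.fxL (s : St P L G ι I k v x0 z) {g : G} {q : P} (hq : q ∈ OO G x0) (hg : g • q = q) :
    g = 1 := s.fx g (fixO s.ac hg (symO hq))

theorem St.card_z (s : St P L G ι I k v x0 z) (i : ι) : 1 < (OO G (z i)).card := by
  rw [s.cO]
  have := numk s.hv s.hk
  have := s.hk
  omega

/-- the set of fixed points of a nontrivial element fixing a short point -/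
theorem St.FXeq (s : St P L G ι I k v x0 z) {h : G} (h1 : h ≠ 1) {i : ι} (hz : h • z i = z i) :
    FX P h = OO G (z i) ∧ (∀ q : P, h • q = q → (dd L I h q).card = k) ∧
      (∀ l : L, h • l = l → (ee P I h l).card = k) := by
  obtain ⟨hn1, hn2, hn3⟩ := numk s.hv s.hk
  have hv := s.hv
  have hk := s.hk
  obtain ⟨m, hm, e1, e2⟩ := exC s.pl s.ac hz
  have hF := cardFX s.pl s.ac hz e1 e2
  have hsq := sq_le s.pl s.ac hz e1 e2 (s.fa h h1)
  have hmk : m ≤ k := by
    by_contra hc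
    push Not at hc
    have := Nat.pow_lt_pow_left hc (two_ne_zero)
    omega
  have hsub : OO G (z i) ⊆ FX P h := fun q hq => mem_FX.2 (fixO s.ac hz hq)
  have hFX : FX P h = OO G (z i) := by
    by_contra hne
    have hss : ∃ q ∈ FX P h, q ∉ OO G (z i) := by
      by_contra hc
      push Not at hc
      exact hne (Finset.Subset.antisymm hc hsub)
    obtain ⟨q, hq1, hq2⟩ := hss
    rw [mem_FX] at hq1
    rcases s.cov q with ⟨g, hg⟩ | ⟨j, g, hg⟩
    · exact h1 (s.fxL (mem_OO.2 ⟨g, hg⟩) hq1)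
    · have hqj : q ∈ OO G (z j) := mem_OO.2 ⟨g, hg⟩
      have hsub2 : OO G (z j) ⊆ FX P h :=
        fun q' hq' => mem_FX.2 (fixO s.ac (fixO s.ac hq1 (symO hqj)) hq')
      have hdis : Disjoint (OO G (z i)) (OO G (z j)) := by
        rw [Finset.disjoint_left]
        intro q' h3 h4
        obtain ⟨g1, hg1⟩ := mem_OO.1 h3
        obtain ⟨g2, hg2⟩ := mem_OO.1 h4
        have : i = j := s.dis i j (g2⁻¹ * g1) (by rw [mul_smul, hg1, ← hg2, inv_smul_smul])
        subst this
        exact hq2 hqj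
      have h5 := Finset.card_le_card (Finset.union_subset hsub hsub2)
      rw [Finset.card_union_of_disjoint hdis, s.cO, s.cO, hF] at h5
      have h6 : m ^ 2 ≤ k ^ 2 := Nat.pow_le_pow_left hmk 2
      omega
  have hmv : m ^ 2 + m + 1 = v := by rw [← hF, hFX, s.cO]
  have hm1 : m + 1 = k := by
    obtain ⟨j, rfl⟩ : ∃ j, k = j + 1 := ⟨k - 1, by omega⟩
    have h3 : m ^ 2 + m = j ^ 2 + j := by nlinarith
    have h4 : (m : ℤ) ^ 2 + m = (j : ℤ) ^ 2 + j := by exact_mod_cast h3
    have h5 : ((m : ℤ) - j) * (m + j + 1) = 0 := by linear_combination h4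
    rcases mul_eq_zero.1 h5 with h6 | h6
    · omega
    · omega
  refine ⟨hFX, ?_, ?_⟩
  · intro q hq
    rw [e1 q hq, hm1]
  · intro l hl
    rw [e2 l hl, hm1]

/-- the stabiliser of a short point -/
def NN (G : Type) {P ι : Type} [Group G] [MulAction G P] (z : ι → P) (i : ι) : Subgroup G :=
  MulAction.stabilizer G (z i)

theorem mem_NN {g : G} {i : ι} : g ∈ NN G z i ↔ g • z i = z i := MulAction.mem_stabilizer_iff

theorem St.card_NN (s : St P L G ι I k v x0 z) (i : ι) : Nat.card (NN G z i) = v := by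
  have h := card_OO (G := G) (z i)
  rw [s.cO, s.cG] at h
  have hv : 0 < v := by
    have := numk s.hv s.hk
    omega
  have : v * Nat.card (NN G z i) = v * v := by rw [← sq]; exact h
  exact Nat.eq_of_mul_eq_mul_left hv this

theorem St.disj (s : St P L G ι I k v x0 z) {i j : ι} (hij : i ≠ j) :
    NN G z i ⊓ NN G z j = ⊥ := by
  rw [eq_bot_iff]
  intro g hg
  rw [Subgroup.mem_inf, mem_NN, mem_NN] at hg
  rw [Subgroup.mem_bot]
  by_contra hne
  have h1 := (s.FXeq hne hg.1).1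
  have h2 : z j ∈ FX P g := mem_FX.2 hg.2
  rw [h1, mem_OO] at h2
  obtain ⟨g', hg'⟩ := h2
  exact hij (s.dis i j g' hg')

theorem St.normal (s : St P L G ι I k v x0 z) (i : ι) : (NN G z i).Normal := by
  constructor
  intro n hn g
  rw [mem_NN] at hn ⊢
  rw [mul_smul, mul_smul, s.ac.qP _ _ _ hn, smul_inv_smul]

theorem St.prod (s : St P L G ι I k v x0 z) {i j : ι} (hij : i ≠ j) (g : G) :
    ∃ a ∈ NN G z i, ∃ b ∈ NN G z j, a * b = g := by
  have h := Subgroup.isComplement'_of_card_mul_and_disjoint (H := NN G z i) (K := NN G z j)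
    (by rw [s.card_NN, s.card_NN, s.cG, sq]) (disjoint_iff.2 (s.disj hij))
  obtain ⟨x, hx, _⟩ := Subgroup.IsComplement.existsUnique h g
  exact ⟨x.1, x.1.2, x.2, x.2.2, hx⟩

theorem St.three (s : St P L G ι I k v x0 z) (i : ι) : ∃ j l : ι, j ≠ i ∧ l ≠ i ∧ j ≠ l := by
  have h1 : 2 < (univ : Finset ι).card := by
    rw [Finset.card_univ, s.cI]
    have := s.hk
    omega
  obtain ⟨a, b, c, _, _, _, hab, hac, hbc⟩ := Finset.two_lt_card_iff.1 h1
  by_cases h2 : a = i
  · exact ⟨b, c, by rw [← h2]; exact hab.symm, by rw [← h2]; exact hac.symm, hbc⟩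
  · by_cases h3 : b = i
    · exact ⟨a, c, h2, by rw [← h3]; exact hbc.symm, hac⟩
    · exact ⟨a, b, h2, h3, hab⟩

theorem St.central (s : St P L G ι I k v x0 z) (i : ι) {a : G} (ha : a ∈ NN G z i) (g : G) :
    a * g = g * a := by
  obtain ⟨j, l, hj, hl, hjl⟩ := s.three i
  obtain ⟨x, hx, y, hy, rfl⟩ := s.prod hjl g
  have h1 : Commute a x := Subgroup.commute_of_normal_of_disjoint _ _ (s.normal i) (s.normal j)
    (disjoint_iff.2 (s.disj hj.symm)) a x ha hx
  have h2 : Commute a y := Subgroup.commute_of_normal_of_disjoint _ _ (s.normal i) (s.normal l)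
    (disjoint_iff.2 (s.disj hl.symm)) a y ha hy
  exact (h1.mul_right h2).eq

theorem St.comm (s : St P L G ι I k v x0 z) (a b : G) : a * b = b * a := by
  have hpos : 0 < Fintype.card ι := by
    rw [s.cI]
    have := s.hk
    omega
  obtain ⟨i⟩ := Fintype.card_pos_iff.1 hpos
  obtain ⟨j, l, hj, hl, hjl⟩ := s.three i
  obtain ⟨x, hx, y, hy, rfl⟩ := s.prod hjl a
  rw [mul_assoc, s.central l hy b, ← mul_assoc, s.central j hx b, mul_assoc]

/-- two points of a short orbit on a line: the line is fixed by the stabiliser -/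
theorem St.twoPts (s : St P L G ι I k v x0 z) {i : ι} {l : L} {p q : P} (hpq : p ≠ q)
    (hp : p ∈ OO G (z i)) (hq : q ∈ OO G (z i)) (h1 : I p l) (h2 : I q l) {a : G}
    (ha : a ∈ NN G z i) : a • l = l :=
  fixJoin s.pl s.ac hpq (fixO s.ac (mem_NN.1 ha) hp) (fixO s.ac (mem_NN.1 ha) hq) h1 h2

/-- a line fixed by one nontrivial element of the stabiliser has two points of the orbit. -/
theorem St.fixTwo (s : St P L G ι I k v x0 z) {i : ι} {l : L} {h : G} (h1 : h ≠ 1)
    (hh : h ∈ NN G z i) (hl : h • l = l) :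
    ∃ p q : P, p ≠ q ∧ p ∈ OO G (z i) ∧ q ∈ OO G (z i) ∧ I p l ∧ I q l := by
  obtain ⟨e1, e2, e3⟩ := s.FXeq h1 (mem_NN.1 hh)
  have h3 : 1 < (ee P I h l).card := by
    rw [e3 l hl]
    have := s.hk
    omega
  obtain ⟨p, hp, q, hq, hpq⟩ := Finset.one_lt_card.1 h3
  rw [mem_ee] at hp hq
  refine ⟨p, q, hpq, ?_, ?_, hp.2, hq.2⟩
  · rw [← e1]; exact mem_FX.2 hp.1
  · rw [← e1]; exact mem_FX.2 hq.1

theorem St.exN (s : St P L G ι I k v x0 z) (i : ι) : ∃ h : G, h ≠ 1 ∧ h ∈ NN G z i := by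
  have h1 : 1 < Nat.card (NN G z i) := by
    rw [s.card_NN]
    have := numk s.hv s.hk
    have := s.hk
    omega
  rw [Nat.card_eq_fintype_card, Fintype.one_lt_card_iff_nontrivial] at h1
  obtain ⟨x, hx⟩ := exists_ne (1 : NN G z i)
  exact ⟨x.1, fun h => hx (Subtype.ext h), x.2⟩

/-- The class of lines with at least two points in the orbit of `z i`. -/
noncomputable def CC (G : Type) {P L ι : Type} [Fintype P] [Fintype L] [Group G] [MulAction G P]
    (I : P → L → Prop) (z : ι → P) (i : ι) : Finset L :=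
  univ.filter fun l => ∃ p q : P, p ≠ q ∧ p ∈ OO G (z i) ∧ q ∈ OO G (z i) ∧ I p l ∧ I q l

theorem mem_CC {l : L} {i : ι} : l ∈ CC G I z i ↔
    ∃ p q : P, p ≠ q ∧ p ∈ OO G (z i) ∧ q ∈ OO G (z i) ∧ I p l ∧ I q l := by simp [CC]

theorem St.CC_eq (s : St P L G ι I k v x0 z) {i : ι} {h : G} (h1 : h ≠ 1)
    (hh : h ∈ NN G z i) : CC G I z i = FX L h := by
  ext l
  rw [mem_CC, mem_FX]
  constructor
  · rintro ⟨p, q, hpq, hp, hq, e1, e2⟩
    exact s.twoPts hpq hp hq e1 e2 hh
  · exact s.fixTwo h1 hh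

theorem St.CC_fix (s : St P L G ι I k v x0 z) {i : ι} {l : L} (hl : l ∈ CC G I z i) {a : G}
    (ha : a ∈ NN G z i) : a • l = l := by
  obtain ⟨p, q, hpq, hp, hq, e1, e2⟩ := mem_CC.1 hl
  exact s.twoPts hpq hp hq e1 e2 ha

theorem St.card_CC (s : St P L G ι I k v x0 z) (i : ι) : (CC G I z i).card = v := by
  obtain ⟨h, h1, hh⟩ := s.exN i
  obtain ⟨e1, e2, e3⟩ := s.FXeq h1 (mem_NN.1 hh)
  rw [s.CC_eq h1 hh]
  obtain ⟨l, hl, _⟩ := exL s.pl s.ac (mem_NN.1 hh)
  obtain ⟨j, hj⟩ : ∃ j, k = j + 1 := ⟨k - 1, by have := s.hk; omega⟩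
  have := cardFX (P := L) (L := P) s.pl.dual s.ac.dual hl (m := j)
    (fun q hq => by rw [← hj]; exact e3 q hq) (fun q hq => by rw [← hj]; exact e2 q hq)
  rw [this]
  have hv := s.hv
  subst hj
  nlinarith

/-- A line with a nontrivial stabiliser lies in some class. -/
theorem St.short (s : St P L G ι I k v x0 z) {l : L} {g : G} (hg : g ≠ 1) (hl : g • l = l) :
    ∃ i, l ∈ CC G I z i := by
  obtain ⟨p, hp, _, _⟩ := exL (P := L) (L := P) s.pl.dual s.ac.dual hl
  rcases s.cov p with ⟨g', hg'⟩ | ⟨i, g', hg'⟩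
  · exact absurd (s.fxL (mem_OO.2 ⟨g', hg'⟩) hp) hg
  · refine ⟨i, ?_⟩
    have hz : g • z i = z i := fixO s.ac hp (symO (mem_OO.2 ⟨g', hg'⟩))
    rw [s.CC_eq hg (mem_NN.2 hz)]
    exact mem_FX.2 hl

theorem St.CC_disj (s : St P L G ι I k v x0 z) {i j : ι} (hij : i ≠ j) :
    Disjoint (CC G I z i) (CC G I z j) := by
  rw [Finset.disjoint_left]
  intro l h1 h2
  obtain ⟨g, hg⟩ := s.ac.nL l
  obtain ⟨a, ha, b, hb, rfl⟩ := s.prod hij g
  apply hg
  rw [mul_smul, s.CC_fix h2 hb, s.CC_fix h1 ha]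

/-- points of another short orbit are not on a line of the class `j`. -/
theorem St.noPt (s : St P L G ι I k v x0 z) {i j : ι} (hij : i ≠ j) {l : L}
    (hl : l ∈ CC G I z j) {p : P} (hp : p ∈ OO G (z i)) : ¬ I p l := by
  intro hI
  have hall : ∀ q ∈ OO G (z i), I q l := by
    intro q hq
    obtain ⟨g1, hg1⟩ := mem_OO.1 (symO hp)
    obtain ⟨g2, hg2⟩ := mem_OO.1 hq
    obtain ⟨a, ha, b, hb, hab⟩ := s.prod hij.symm (g2 * g1)
    have h1 : (g2 * g1) • p = q := by rw [mul_smul, hg1, hg2]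
    have h2 : b • p = p := fixO s.ac (mem_NN.1 hb) hp
    have h3 := s.ac.inc a _ _ hI
    rw [s.CC_fix hl ha] at h3
    rw [← hab, mul_smul, h2] at h1
    rwa [h1] at h3
  obtain ⟨p', hp', q', hq', hne⟩ := Finset.one_lt_card.1 (s.card_z i)
  have : l ∈ CC G I z i := mem_CC.2 ⟨p', q', hne, hp', hq', hall _ hp', hall _ hq'⟩
  exact (Finset.disjoint_left.1 (s.CC_disj hij)) this hl

/-- lines with trivial stabiliser -/
noncomputable def LL (G : Type) {P L ι : Type} [Fintype P] [Fintype L] [Group G] [MulAction G P]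
    (I : P → L → Prop) (z : ι → P) : Finset L := univ.filter fun l => ∀ i, l ∉ CC G I z i

theorem mem_LL {l : L} : l ∈ LL G I z ↔ ∀ i, l ∉ CC G I z i := by simp [LL]

theorem St.card_LL (s : St P L G ι I k v x0 z) : (LL G I z).card = v ^ 2 := by
  have h1 : (univ.biUnion fun i => CC G I z i).card = 2 * k * v := by
    rw [Finset.card_biUnion (fun i _ j _ hij => s.CC_disj hij)]
    rw [Finset.sum_congr rfl (fun i _ => s.card_CC i), Finset.sum_const, Finset.card_univ, s.cI,
      smul_eq_mul]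
  have h2 : LL G I z = univ \ (univ.biUnion fun i => CC G I z i) := by
    ext l
    rw [mem_LL, mem_sdiff, mem_biUnion]
    simp
  rw [h2, Finset.card_sdiff_of_subset (Finset.subset_univ _), h1, Finset.card_univ, s.pl.cL]
  have := numk s.hv s.hk
  omega

theorem St.LLfix (s : St P L G ι I k v x0 z) {l : L} (hl : l ∈ LL G I z) {g : G}
    (hg : g • l = l) : g = 1 := by
  by_contra hne
  obtain ⟨i, hi⟩ := s.short hne hg
  exact mem_LL.1 hl i hi

/-- the number of long lines through a short point -/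
theorem St.thr (s : St P L G ι I k v x0 z) {i : ι} {p : P} (hp : p ∈ OO G (z i)) :
    ((LL G I z).filter fun l => I p l).card = v := by
  obtain ⟨h, h1, hh⟩ := s.exN i
  obtain ⟨e1, e2, e3⟩ := s.FXeq h1 (mem_NN.1 hh)
  have hpf : h • p = p := fixO s.ac (mem_NN.1 hh) hp
  have h2 := e2 p hpf
  have h3 : (univ.filter fun l => I p l) = dd L I h p ∪ ((LL G I z).filter fun l => I p l) := by
    ext l
    rw [mem_filter, mem_union, mem_filter, mem_dd]
    constructor
    · rintro ⟨_, h4⟩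
      by_cases h5 : l ∈ LL G I z
      · exact Or.inr ⟨h5, h4⟩
      · rw [mem_LL] at h5
        push Not at h5
        obtain ⟨j, hj⟩ := h5
        by_cases hij : i = j
        · subst hij
          exact Or.inl ⟨s.CC_fix hj hh, h4⟩
        · exact absurd h4 (s.noPt hij hj hp)
    · rintro (h4 | h4)
      · exact ⟨mem_univ _, h4.2⟩
      · exact ⟨mem_univ _, h4.2⟩
  have h4 : Disjoint (dd L I h p) ((LL G I z).filter fun l => I p l) := by
    rw [Finset.disjoint_left]
    intro l h5 h6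
    rw [mem_dd] at h5
    rw [mem_filter] at h6
    exact h1 (s.LLfix h6.1 h5.1)
  have h5 := s.pl.lns p
  rw [h3, Finset.card_union_of_disjoint h4, h2] at h5
  have := s.hv
  omega

/-- a long line has exactly one point in each short orbit -/
theorem St.one (s : St P L G ι I k v x0 z) (i : ι) {l : L} (hl : l ∈ LL G I z) :
    ((OO G (z i)).filter fun p => I p l).card = 1 := by
  have key := Finset.sum_card_bipartiteAbove_eq_sum_card_bipartiteBelow
    (s := OO G (z i)) (t := LL G I z) (fun p l => I p l)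
  have e1 : ∀ p ∈ OO G (z i), ((LL G I z).bipartiteAbove (fun p l => I p l) p).card = v :=
    fun p hp => s.thr hp
  rw [Finset.sum_congr rfl e1, Finset.sum_const, s.cO, smul_eq_mul] at key
  have hle : ∀ l ∈ LL G I z, ((OO G (z i)).bipartiteBelow (fun p l => I p l) l).card ≤ 1 := by
    intro l hl
    by_contra hc
    push Not at hc
    obtain ⟨p, hp, q, hq, hpq⟩ := Finset.one_lt_card.1 hc
    rw [Finset.mem_bipartiteBelow] at hp hq
    exact mem_LL.1 hl i (mem_CC.2 ⟨p, q, hpq, hp.1, hq.1, hp.2, hq.2⟩)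
  by_contra hne
  have hlt : ((OO G (z i)).bipartiteBelow (fun p l => I p l) l).card < 1 :=
    lt_of_le_of_ne (hle l hl) hne
  have := Finset.sum_lt_sum hle ⟨l, hl, hlt⟩
  rw [← key, Finset.sum_const, s.card_LL, smul_eq_mul] at this
  nlinarith

end

end Pool.Agent.Y389.QH
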